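import Pool.Agent.V11223.NR.Time1

/-!
# The algorithm runs in polynomial time
-/

namespace Pool.Agent.NPC.V11223NR

open Pool.Agent.V11223.NR Pool.Agent.NPC Pool.Agent.V11223

variable {α : Type} [TEnc α]

theorem detect_poly {M : α → List (List Bool)} {H : α → List (List ℕ)} {vs ks : α → List ℕ}
    {ms : α → List (List Bool)} {Ls : α → List Unit} {σ : α → List ℕ} (hM : Poly M)
    (hH : Poly H) (hvs : Poly vs) (hks : Poly ks) (hms : Poly ms) (hLs : Poly Ls) (hσ : Poly σ) :
    Poly (fun a => detect (M a) (H a) (vs a) (ks a) (ms a) (Ls a) (σ a)) := by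
  unfold detect
  refine Poly.head? ?_
  refine Poly.flatMap (F := fun a h => (vs a).flatMap fun x => (vs a).flatMap fun y =>
    cands (M a) (σ a) h (vs a) (ks a) (ms a) (Ls a) x y) hH ?_
  refine Poly.flatMap (F := fun (p : α × List ℕ) x => (vs p.1).flatMap fun y =>
    cands (M p.1) (σ p.1) p.2 (vs p.1) (ks p.1) (ms p.1) (Ls p.1) x y)
    (hvs.comp (Poly.fst Poly.id)) ?_
  refine Poly.flatMap (F := fun (p : (α × List ℕ) × ℕ) y =>
    cands (M p.1.1) (σ p.1.1) p.1.2 (vs p.1.1) (ks p.1.1) (ms p.1.1) (Ls p.1.1) p.2 y)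
    (hvs.comp (Poly.fst (Poly.fst Poly.id))) ?_
  have hf : Poly (fun p : ((α × List ℕ) × ℕ) × ℕ => p.1.1.1) :=
    Poly.fst (Poly.fst (Poly.fst Poly.id))
  exact cands_poly (hM.comp hf) (hσ.comp hf) (Poly.snd (Poly.fst (Poly.fst Poly.id)))
    (hvs.comp hf) (hks.comp hf) (hms.comp hf) (hLs.comp hf) (Poly.snd (Poly.fst Poly.id))
    (Poly.snd Poly.id)

theorem free_poly {vs σ : α → List ℕ} (hvs : Poly vs) (hσ : Poly σ) :
    Poly (fun a => free (vs a) (σ a)) := by
  unfold free
  refine Poly.head? (Poly.filter (p := fun a i => decide ((σ a).getD i 0 = 0)) hvs ?_)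
  exact Poly.decide_eq (Poly.getD (hσ.comp (Poly.fst Poly.id)) (Poly.snd Poly.id) (Poly.const 0))
    (Poly.const 0)

theorem side_poly {v : α → ℕ} {e : α → Ent} (hv : Poly v) (he : Poly e) :
    Poly (fun a => side (v a) (e a)) := by
  unfold side
  have h1 : Poly (fun a => (e a).map Prod.fst) :=
    Poly.map (F := fun _ (p : ℕ × ℕ) => p.1) he (Poly.fst (Poly.snd Poly.id))
  have h2 : Poly (fun a => (e a).map Prod.snd) :=
    Poly.map (F := fun _ (p : ℕ × ℕ) => p.2) he (Poly.snd (Poly.snd Poly.id))
  exact Poly.cond (Poly.decide_mem hv h1) h1 h2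

theorem setc_poly {vs σ : α → List ℕ} {v x : α → ℕ} (hvs : Poly vs) (hσ : Poly σ) (hv : Poly v)
    (hx : Poly x) : Poly (fun a => setc (vs a) (σ a) (v a) (x a)) := by
  unfold setc
  have hf : Poly (fun p : α × ℕ => p.1) := Poly.fst Poly.id
  exact Poly.map (F := fun a i => bif decide (i = v a) then x a else (σ a).getD i 0) hvs
    (Poly.cond (Poly.decide_eq (Poly.snd Poly.id) (hv.comp hf)) (hx.comp hf)
      (Poly.getD (hσ.comp hf) (Poly.snd Poly.id) (Poly.const 0)))

theorem uncol_poly {vs σ S : α → List ℕ} (hvs : Poly vs) (hσ : Poly σ) (hS : Poly S) :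
    Poly (fun a => uncol (vs a) (σ a) (S a)) := by
  unfold uncol
  have hf : Poly (fun p : α × ℕ => p.1) := Poly.fst Poly.id
  exact Poly.map (F := fun a i => bif decide (i ∈ S a) then 0 else (σ a).getD i 0) hvs
    (Poly.cond (Poly.decide_mem (Poly.snd Poly.id) (hS.comp hf)) (Poly.const 0)
      (Poly.getD (hσ.comp hf) (Poly.snd Poly.id) (Poly.const 0)))

theorem stepAt_poly {det : α → List ℕ → Option Ent} {vs σ : α → List ℕ} {x v : α → ℕ}
    (hdet : Poly (fun p : α × List ℕ => det p.1 p.2)) (hvs : Poly vs) (hσ : Poly σ) (hx : Poly x)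
    (hv : Poly v) : Poly (fun a => stepAt (det a) (vs a) (x a) (v a) (σ a)) := by
  unfold stepAt
  have h1 : Poly (fun a => setc (vs a) (σ a) (v a) (x a + 1)) :=
    setc_poly hvs hσ hv (Poly.add hx (Poly.const 1))
  have h2 : Poly (fun a => det a (setc (vs a) (σ a) (v a) (x a + 1))) :=
    hdet.comp (Poly.pair Poly.id h1)
  have hf : Poly (fun p : α × Ent => p.1) := Poly.fst Poly.id
  exact (Poly.optCases (h := fun a e => uncol (vs a) (setc (vs a) (σ a) (v a) (x a + 1))
    (side (v a) e)) h2 h1 (uncol_poly (hvs.comp hf) (h1.comp hf)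
      (side_poly (hv.comp hf) (Poly.snd Poly.id)))).congr fun a => by
        cases det a (setc (vs a) (σ a) (v a) (x a + 1)) <;> rfl

theorem step_poly {det : α → List ℕ → Option Ent} {vs σ : α → List ℕ} {x : α → ℕ}
    (hdet : Poly (fun p : α × List ℕ => det p.1 p.2)) (hvs : Poly vs) (hσ : Poly σ)
    (hx : Poly x) : Poly (fun a => step (det a) (vs a) (x a) (σ a)) := by
  unfold step
  have hf : Poly (fun p : α × ℕ => p.1) := Poly.fst Poly.id
  refine (Poly.optCases (h := fun a v => stepAt (det a) (vs a) (x a) v (σ a)) (free_poly hvs hσ) hσ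
    ?_).congr fun a => by cases free (vs a) (σ a) <;> rfl
  refine stepAt_poly (det := fun p : α × ℕ => det p.1) ?_ (hvs.comp hf) (hσ.comp hf) (hx.comp hf)
    (Poly.snd Poly.id)
  exact hdet.comp (f := fun p : (α × ℕ) × List ℕ => (p.1.1, p.2))
    (Poly.pair (Poly.fst (Poly.fst Poly.id)) (Poly.snd Poly.id))

theorem dmax_poly {M : α → List (List Bool)} (hM : Poly M) : Poly (fun a => dmax (M a)) := by
  unfold dmax
  have h1 : Poly (fun a => (M a).map fun r => (r.filter fun b => b).length) :=
    Poly.map (F := fun _ (r : List Bool) => (r.filter fun b => b).length) hM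
      (Poly.length (Poly.filter (p := fun (_ : α × List Bool) b => b) (Poly.snd Poly.id)
        (Poly.snd Poly.id)))
  obtain ⟨q, hq⟩ := h1.sz_le
  refine Poly.foldr (F := fun _ x s => max x s) h1 (Poly.const 0)
    (Poly.max (Poly.fst (Poly.snd Poly.id)) (Poly.snd (Poly.snd Poly.id))) (q + 1) ?_
  intro a k _
  set l := (M a).map fun r => (r.filter fun b => b).length
  have key : ∀ l : List ℕ, sz (l.foldr (fun x s => max x s) 0) ≤ sz l + 1 := by
    intro l
    induction l with
    | nil => simp [sz_nat]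
    | cons x l ih =>
      rw [List.foldr_cons, sz_list_cons]
      rcases max_choice x (l.foldr (fun x s => max x s) 0) with h | h
      · rw [h]; omega
      · rw [h]; omega
  refine (key _).trans ?_
  have h2 := Poly.sz_drop_le l k
  have h3 := hq a
  change sz l ≤ _ at h3
  simp only [Polynomial.eval_add, Polynomial.eval_one]
  omega

theorem bk_poly {r : α → List Bool} {st len : α → ℕ} (hr : Poly r) (hst : Poly st)
    (hlen : Poly len) : Poly (fun a => bk (r a) (st a) (len a)) := by
  unfold bk
  exact Poly.valBits (take_poly (drop_poly hr hst) hlen)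

theorem upow {n : α → ℕ} (hn : UPoly n) (k : ℕ) : UPoly (fun a => n a ^ k) := by
  have := UPoly.eval hn (Polynomial.X ^ k)
  simpa only [Polynomial.eval_pow, Polynomial.eval_X] using this

theorem pL_upoly {n : α → ℕ} (hn : UPoly n) : UPoly (fun a => pL (n a)) :=
  UPoly.add (V11223MC.size_upoly hn.toPoly) (UPoly.const 1)

theorem pq_upoly {n : α → ℕ} (hn : UPoly n) : UPoly (fun a => pq (n a)) :=
  V11223MC.size_upoly (Poly.mul (Poly.const 4) (pL_upoly hn).toPoly)

theorem pq2_upoly {n : α → ℕ} (hn : UPoly n) : UPoly (fun a => 2 ^ pq (n a)) :=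
  UPoly.of_le (V11223MC.two_pow_poly (pq_upoly hn)) (UPoly.mul (UPoly.const 8) (pL_upoly hn))
    fun a => pq_le (n a)

theorem pN_upoly {n : α → ℕ} (hn : UPoly n) : UPoly (fun a => pN (n a)) := by
  unfold pN
  exact UPoly.mul (UPoly.mul (UPoly.const 16) (upow hn 2))
    (UPoly.add (UPoly.add (UPoly.mul (UPoly.const 2) (upow hn 2)) (UPoly.mul (UPoly.const 3) hn))
      (UPoly.const 1))

theorem pm_upoly {n : α → ℕ} (hn : UPoly n) : UPoly (fun a => pm (n a)) := by
  unfold pm
  exact UPoly.add (UPoly.add (UPoly.mul hn (UPoly.add (UPoly.mul (UPoly.const 2) hn)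
    (UPoly.const 6))) hn) (UPoly.const 1)

theorem pb_upoly {D : α → ℕ} (hD : Poly D) : UPoly (fun a => pb (D a)) := by
  unfold pb
  refine UPoly.add (V11223MC.size_upoly ?_) (UPoly.const 5)
  simpa only [pow_two] using Poly.mul hD hD

theorem hashes_poly {r : α → List Bool} {N n q : α → ℕ} (hr : Poly r) (hN : UPoly N)
    (hn : UPoly n) (hq : Poly q) : Poly (fun a => hashes (r a) (N a) (n a) (q a)) := by
  unfold hashes
  refine Poly.map (F := fun a j => (List.range (n a)).map fun u =>
    bk (r a) ((j * n a + u) * q a) (q a)) hN.range ?_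
  refine Poly.map (F := fun (p : α × ℕ) u => bk (r p.1) ((p.2 * n p.1 + u) * q p.1) (q p.1))
    (hn.comp (Poly.fst Poly.id)).range ?_
  have hf : Poly (fun p : (α × ℕ) × ℕ => p.1.1) := Poly.fst (Poly.fst Poly.id)
  exact bk_poly (hr.comp hf) (Poly.mul (Poly.add (Poly.mul (Poly.snd (Poly.fst Poly.id))
    (hn.toPoly.comp hf)) (Poly.snd Poly.id)) (hq.comp hf)) (hq.comp hf)

theorem cols_poly {r : α → List Bool} {st m b : α → ℕ} (hr : Poly r) (hst : Poly st)
    (hm : UPoly m) (hb : Poly b) : Poly (fun a => cols (r a) (st a) (m a) (b a)) := by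
  unfold cols
  refine Poly.map (F := fun a i => bk (r a) (st a + i * b a) (b a)) hm.range ?_
  have hf : Poly (fun p : α × ℕ => p.1) := Poly.fst Poly.id
  exact bk_poly (hr.comp hf) (Poly.add (hst.comp hf) (Poly.mul (Poly.snd Poly.id) (hb.comp hf)))
    (hb.comp hf)

theorem msks_poly {n q : α → ℕ} (hn : UPoly n) (hq : UPoly (fun a => 2 ^ q a)) :
    Poly (fun a => msks (n a) (q a)) := by
  unfold msks
  exact V11223YD.tup_poly (UPoly.mul (upow hn 8) (UPoly.const 65536)) (Poly.const [false, true]) hq

theorem det_poly {M : α → List (List Bool)} {r : α → List Bool} {σ : α → List ℕ} (hM : Poly M)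
    (hr : Poly r) (hσ : Poly σ) : Poly (fun a => det (M a) (r a) (σ a)) := by
  unfold det
  have hn : UPoly (fun a => (M a).length) := UPoly.length hM
  exact detect_poly hM (hashes_poly hr (pN_upoly hn) hn (pq_upoly hn).toPoly) hn.range
    (pq2_upoly hn).range (msks_poly hn (pq2_upoly hn)) (pL_upoly hn) hσ

theorem final_poly {M : α → List (List Bool)} {r : α → List Bool} (hM : Poly M) (hr : Poly r) :
    Poly (fun a => final (M a) (r a)) := by
  have hn : UPoly (fun a => (M a).length) := UPoly.length hM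
  have hb := pb_upoly (dmax_poly hM)
  have hc : Poly (fun a => cols (r a) (pN (M a).length * (M a).length * pq (M a).length)
      (pm (M a).length) (pb (dmax (M a)))) :=
    cols_poly hr (Poly.mul (Poly.mul (pN_upoly hn).toPoly hn.toPoly) (pq_upoly hn).toPoly)
      (pm_upoly hn) hb.toPoly
  have h0 : Poly (fun a => (List.range (M a).length).map fun _ => 0) :=
    Poly.map (F := fun _ (_ : ℕ) => 0) hn.range (Poly.const 0)
  obtain ⟨p1, hp1⟩ := hb.sz_le
  obtain ⟨p2, hp2⟩ := hn.sz_le
  unfold final
  refine Poly.foldr (F := fun a x s => step (det (M a) (r a)) (List.range (M a).length) x s) hc h0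
    ?_ (p2 * (8 * p1 + 10) + 1) ?_
  · have hf : Poly (fun p : α × ℕ × List ℕ => p.1) := Poly.fst Poly.id
    refine step_poly (det := fun p : α × ℕ × List ℕ => det (M p.1) (r p.1)) ?_
      (hn.comp hf).range (Poly.snd (Poly.snd Poly.id)) (Poly.fst (Poly.snd Poly.id))
    exact det_poly (hM.comp (Poly.fst (Poly.fst Poly.id))) (hr.comp (Poly.fst (Poly.fst Poly.id)))
      (Poly.snd Poly.id)
  · intro a k _
    set xs := (cols (r a) (pN (M a).length * (M a).length * pq (M a).length)
      (pm (M a).length) (pb (dmax (M a)))).drop k with hxs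
    change sz (run (det (M a) (r a)) (M a).length xs) ≤ _
    have hlt : ∀ x ∈ xs, x < 2 ^ pb (dmax (M a)) := fun x hx =>
      cols_lt _ _ _ _ x (List.mem_of_mem_drop hx)
    have h1 : (run (det (M a) (r a)) (M a).length xs).length = (M a).length := run_length xs
    have h2 := run_le (n := (M a).length) (det := det (M a) (r a)) hlt
    have e1 : (pb (dmax (M a))) ≤ p1.eval (sz a) := by
      have := hp1 a
      simp only at this
      have h3 := length_lt_sz (List.replicate (pb (dmax (M a))) ())
      rw [List.length_replicate] at h3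
      omega
    have e2 : (M a).length ≤ p2.eval (sz a) := by
      have := hp2 a
      simp only at this
      have h3 := length_lt_sz (List.replicate (M a).length ())
      rw [List.length_replicate] at h3
      omega
    refine (sz_le_length_mul _ (8 * p1.eval (sz a) + 9) fun x hx => ?_).trans ?_
    · obtain ⟨i, hi, rfl⟩ := List.getElem_of_mem hx
      have h3 := h2 i (by omega)
      rw [List.getD_eq_getElem _ _ hi] at h3
      have h4 := sz_nat_le ((run (det (M a) (r a)) (M a).length xs)[i])
      have h5 : ((run (det (M a) (r a)) (M a).length xs)[i]).size ≤ pb (dmax (M a)) + 1 := by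
        rw [Nat.size_le]
        refine lt_of_le_of_lt h3 ?_
        rw [pow_succ]
        have : 0 < 2 ^ pb (dmax (M a)) := by positivity
        omega
      omega
    · rw [h1]
      simp only [Polynomial.eval_add, Polynomial.eval_mul, Polynomial.eval_one,
        Polynomial.eval_ofNat]
      exact Nat.add_le_add_right (Nat.mul_le_mul e2 (by omega)) 1

theorem algo_poly : Poly algo := by
  unfold algo
  have hM : Poly (fun x : List (List Bool) × List Bool => x.1) := Poly.fst Poly.id
  have hr : Poly (fun x : List (List Bool) × List Bool => x.2) := Poly.snd Poly.id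
  refine Poly.cond (Poly.decide_eq (dmax_poly hM) (Poly.const 0)) ?_ ?_
  · exact Poly.map (F := fun _ (_ : ℕ) => 0) (UPoly.length hM).range (Poly.const 0)
  · exact Poly.map (F := fun _ (c : ℕ) => c - 1) (final_poly hM hr)
      (Poly.sub (Poly.snd Poly.id) (Poly.const 1))

end Pool.Agent.NPC.V11223NR
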