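import Pool.Agent.V11223.YD.Alg
import Pool.Agent.NPC.Num
import Mathlib

/-!
# Nonrepetitive colouring: the algorithm

Vertices are coloured one after the other with random colours. Whenever the coloured part contains
a repetitively coloured path or a pair of disjoint equally coloured paths of logarithmic order, one
half of it is uncoloured. Such a structure is found by colour coding.
-/

namespace Pool.Agent.V11223.NR

open Pool.Agent.NPC

/-- a sequence of pairs of vertices, the last pair first -/
abbrev Ent := List (ℕ × ℕ)

/-- adjacency of `u` and `w` in the matrix `M` -/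
def adj (M : List (List Bool)) (u w : ℕ) : Bool := (M.getD u []).getD w false

/-- the vertices of a sequence of pairs -/
def verts (e : Ent) : List ℕ := e.flatMap fun p => [p.1, p.2]

/-- the hash values of the vertices of a sequence of pairs -/
def hv (h : List ℕ) (e : Ent) : List ℕ := (verts e).map fun u => h.getD u 0

/-- the set of the hash values which are used -/
def mask (ks h : List ℕ) (e : Ent) : List Bool := ks.map fun i => decide (i ∈ hv h e)

/-- `a` and `b` are coloured with the same colour and their hash values are new -/
def okc (σ h : List ℕ) (e : Ent) (a b : ℕ) : Bool :=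
  (decide (σ.getD a 0 = σ.getD b 0) && !decide (σ.getD a 0 = 0)) &&
    ((!decide (h.getD a 0 ∈ hv h e) && !decide (h.getD b 0 ∈ hv h e)) &&
      !decide (h.getD a 0 = h.getD b 0))

/-- the extension by the pair `(a, b)` -/
def extAt (M : List (List Bool)) (σ h : List ℕ) (e : Ent) (a b : ℕ) : List Ent :=
  bif (adj M (e.headD (0, 0)).1 a && adj M (e.headD (0, 0)).2 b) && okc σ h e a b
    then [(a, b) :: e] else []

/-- the extensions by one pair -/
def extOf (M : List (List Bool)) (σ h vs : List ℕ) (e : Ent) : List Ent :=
  vs.flatMap fun a => vs.flatMap fun b => extAt M σ h e a b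

/-- the first element, as a list -/
def hd1 {β : Type} : List β → List β
  | [] => []
  | e :: _ => [e]

/-- The last pair is `(a, b)` and the set of hash values is `w`. -/
def keyB (h ks : List ℕ) (a b : ℕ) (w : List Bool) (e : Ent) : Bool :=
  decide (e.headD (0, 0) = (a, b)) && decide (mask ks h e = w)

/-- one sequence for every end and every set of hash values -/
def pick (h vs ks : List ℕ) (ms : List (List Bool)) (l : List Ent) : List Ent :=
  vs.flatMap fun a => vs.flatMap fun b => ms.flatMap fun w => hd1 (l.filter (keyB h ks a b w))

/-- the next level -/
def nextLev (M : List (List Bool)) (σ h vs ks : List ℕ) (ms : List (List Bool))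
    (cur : List Ent) : List Ent :=
  pick h vs ks ms (cur.flatMap (extOf M σ h vs))

/-- the first level -/
def base (σ h : List ℕ) (a b : ℕ) : List Ent := bif okc σ h [] a b then [[(a, b)]] else []

/-- The event is closed: it has full length, or its first half is followed by its second half. -/
def closes (M : List (List Bool)) (L b : ℕ) (e : Ent) : Bool :=
  decide (e.length = L) || adj M (e.headD (0, 0)).1 b

/-- the events found with the hash function `h`, starting with the pair `(a, b)` -/
def cands (M : List (List Bool)) (σ h vs ks : List ℕ) (ms : List (List Bool)) (Ls : List Unit)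
    (a b : ℕ) : List Ent :=
  (Ls.foldl (fun (s : List Ent × List Ent) _ => (nextLev M σ h vs ks ms s.1, s.2 ++ s.1))
    (base σ h a b, [])).2.filter (closes M Ls.length b)

/-- an event, if there is one -/
def detect (M : List (List Bool)) (H : List (List ℕ)) (vs ks : List ℕ) (ms : List (List Bool))
    (Ls : List Unit) (σ : List ℕ) : Option Ent :=
  (H.flatMap fun h => vs.flatMap fun a => vs.flatMap fun b => cands M σ h vs ks ms Ls a b).head?

/-- the first uncoloured vertex -/
def free (vs σ : List ℕ) : Option ℕ := (vs.filter fun i => decide (σ.getD i 0 = 0)).head?

/-- the half of the event which contains `v` -/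
def side (v : ℕ) (e : Ent) : List ℕ :=
  bif decide (v ∈ e.map Prod.fst) then e.map Prod.fst else e.map Prod.snd

/-- colour `v` with `x` -/
def setc (vs σ : List ℕ) (v x : ℕ) : List ℕ := vs.map fun i => bif decide (i = v) then x else
  σ.getD i 0

/-- uncolour the vertices of `S` -/
def uncol (vs σ S : List ℕ) : List ℕ := vs.map fun i => bif decide (i ∈ S) then 0 else σ.getD i 0

/-- the part of a step after the choice of the vertex -/
def stepAt (det : List ℕ → Option Ent) (vs : List ℕ) (x v : ℕ) (σ : List ℕ) : List ℕ :=
  match det (setc vs σ v (x + 1)) with
  | none => setc vs σ v (x + 1)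
  | some e => uncol vs (setc vs σ v (x + 1)) (side v e)

/-- one step with the random colour `x` -/
def step (det : List ℕ → Option Ent) (vs : List ℕ) (x : ℕ) (σ : List ℕ) : List ℕ :=
  match free vs σ with
  | none => σ
  | some v => stepAt det vs x v σ

/-- the largest degree -/
def dmax (M : List (List Bool)) : ℕ :=
  (M.map fun r => (r.filter fun b => b).length).foldr max 0

/-- the number with the binary digits `r (st), …, r (st + len - 1)` -/
def bk (r : List Bool) (st len : ℕ) : ℕ := valB ((r.drop st).take len)

/-- number of levels -/
def pL (n : ℕ) : ℕ := n.size + 1
/-- number of digits of the hash values -/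
def pq (n : ℕ) : ℕ := (4 * pL n).size
/-- number of hash functions -/
def pN (n : ℕ) : ℕ := 16 * n ^ 2 * (2 * n ^ 2 + 3 * n + 1)
/-- number of steps -/
def pm (n : ℕ) : ℕ := n * (2 * n + 6) + n + 1
/-- number of digits of the colours -/
def pb (D : ℕ) : ℕ := (D ^ 2).size + 5

/-- the hash functions -/
def hashes (r : List Bool) (N n q : ℕ) : List (List ℕ) :=
  (List.range N).map fun j => (List.range n).map fun u => bk r ((j * n + u) * q) q

/-- the random colours -/
def cols (r : List Bool) (st m b : ℕ) : List ℕ := (List.range m).map fun i => bk r (st + i * b) b

/-- the sets of hash values -/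
def msks (n q : ℕ) : List (List Bool) :=
  YD.tup (List.replicate (n ^ 8 * 65536) ()) [false, true] (List.replicate (2 ^ q) ())

/-- the detection with all its parameters -/
def det (M : List (List Bool)) (r : List Bool) : List ℕ → Option Ent :=
  detect M (hashes r (pN M.length) M.length (pq M.length)) (List.range M.length)
    (List.range (2 ^ pq M.length)) (msks M.length (pq M.length)) (List.replicate (pL M.length) ())

/-- the final partial colouring -/
def final (M : List (List Bool)) (r : List Bool) : List ℕ :=
  (cols r (pN M.length * M.length * pq M.length) (pm M.length) (pb (dmax M))).foldr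
    (step (det M r) (List.range M.length)) ((List.range M.length).map fun _ => 0)

/-- the algorithm: adjacency matrix and random bits to colouring -/
def algo (x : List (List Bool) × List Bool) : List ℕ :=
  bif decide (dmax x.1 = 0) then (List.range x.1.length).map fun _ => 0
  else (final x.1 x.2).map fun c => c - 1

end Pool.Agent.V11223.NR
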