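import Pool.Agent.V11223.NR.Prob

/-!
# Correctness of the algorithm
-/

namespace Pool.Agent.V11223.NR

open Pool.Agent.NPC

/-- The adjacency matrix of a graph on `Fin n`. -/
def mat {n : ℕ} (G : SimpleGraph (Fin n)) [DecidableRel G.Adj] : List (List Bool) :=
  List.ofFn fun i => List.ofFn fun j => decide (G.Adj i j)

/-- A vertex colouring is nonrepetitive: the sequence of the colours along a path is never a
nonempty word followed by the same word. -/
def Nonrepetitive {V : Type} (G : SimpleGraph V) (c : V → ℕ) : Prop :=
  ∀ (u v : V) (p : G.Walk u v), p.IsPath → ∀ w : List ℕ, w ≠ [] → p.support.map c ≠ w ++ w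

section
variable {n : ℕ} (G : SimpleGraph (Fin n)) [DecidableRel G.Adj]

theorem mat_length : (mat G).length = n := by simp [mat]

theorem mat_getD {u : ℕ} (hu : u < n) :
    (mat G).getD u [] = List.ofFn fun j => decide (G.Adj ⟨u, hu⟩ j) := by
  unfold mat
  rw [List.getD_eq_getElem _ _ (by simpa using hu), List.getElem_ofFn]

theorem adj_mat {u w : ℕ} :
    adj (mat G) u w = true ↔ ∃ (hu : u < n) (hw : w < n), G.Adj ⟨u, hu⟩ ⟨w, hw⟩ := by
  unfold adj
  by_cases hu : u < n
  · rw [mat_getD G hu]
    by_cases hw : w < n
    · rw [List.getD_eq_getElem _ _ (by simpa using hw), List.getElem_ofFn]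
      simp [hu, hw]
    · rw [List.getD_eq_default _ _ (by simpa using hw)]
      simp [hw]
  · rw [List.getD_eq_default (mat G) _ (by rw [mat_length]; omega)]
    simp [hu]

theorem adj_mat_symm (u w : ℕ) : adj (mat G) u w = adj (mat G) w u := by
  rw [Bool.eq_iff_iff, adj_mat, adj_mat]
  constructor
  · rintro ⟨h1, h2, h⟩; exact ⟨h2, h1, h.symm⟩
  · rintro ⟨h1, h2, h⟩; exact ⟨h2, h1, h.symm⟩

theorem finRange_filter (p : Fin n → Bool) :
    ((List.finRange n).filter p).length = (Finset.univ.filter fun i => p i = true).card := by
  rw [← List.toFinset_card_of_nodup ((List.nodup_finRange n).filter _)]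
  congr 1
  ext i
  simp

theorem row_count {u : ℕ} (hu : u < n) :
    (((mat G).getD u []).filter fun b => b).length = G.degree ⟨u, hu⟩ := by
  rw [mat_getD G hu, List.ofFn_eq_map, List.filter_map, List.length_map, finRange_filter]
  rw [← SimpleGraph.card_neighborFinset_eq_degree]
  congr 1
  ext i
  simp

theorem range_count {u : ℕ} (hu : u < n) :
    ((List.range n).filter fun w => adj (mat G) u w).length = G.degree ⟨u, hu⟩ := by
  have h1 : List.range n = (List.finRange n).map Fin.val := by simp
  rw [h1, List.filter_map, List.length_map, finRange_filter,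
    ← SimpleGraph.card_neighborFinset_eq_degree]
  congr 1
  ext i
  simp only [Function.comp_apply, Finset.mem_filter, Finset.mem_univ, true_and, adj_mat,
    SimpleGraph.mem_neighborFinset]
  constructor
  · rintro ⟨_, _, h⟩; exact h
  · intro h; exact ⟨hu, i.2, h⟩

omit [DecidableRel G.Adj] in
theorem le_foldr_max (l : List ℕ) : ∀ x ∈ l, x ≤ l.foldr max 0 := by
  induction l with
  | nil => simp
  | cons a l ih =>
    intro x hx
    rw [List.foldr_cons]
    rcases List.mem_cons.1 hx with rfl | hx
    · exact le_max_left _ _
    · exact (ih x hx).trans (le_max_right _ _)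

theorem foldr_max_le (l : List ℕ) (c : ℕ) (h : ∀ x ∈ l, x ≤ c) : l.foldr max 0 ≤ c := by
  induction l with
  | nil => simp
  | cons a l ih =>
    rw [List.foldr_cons]
    exact max_le (h a (by simp)) (ih fun x hx => h x (List.mem_cons_of_mem _ hx))

theorem dmax_mat : dmax (mat G) = G.maxDegree := by
  unfold dmax
  apply le_antisymm
  · refine foldr_max_le _ _ fun x hx => ?_
    obtain ⟨row, hrow, rfl⟩ := List.mem_map.1 hx
    obtain ⟨u, hu, rfl⟩ := List.getElem_of_mem hrow
    have hu' : u < n := by rwa [mat_length] at hu
    have := row_count G hu'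
    rw [List.getD_eq_getElem _ _ hu] at this
    rw [this]
    exact G.degree_le_maxDegree _
  · refine G.maxDegree_le_of_forall_degree_le _ fun v => ?_
    have hv : (v : ℕ) < (mat G).length := by rw [mat_length]; exact v.2
    have := row_count G v.2
    rw [List.getD_eq_getElem _ _ hv] at this
    rw [show G.degree v = G.degree ⟨v, v.2⟩ from rfl, ← this]
    exact le_foldr_max _ _ (List.mem_map.2 ⟨_, List.getElem_mem hv, rfl⟩)

theorem range_count_le (u : ℕ) :
    ((List.range n).filter fun w => adj (mat G) u w).length ≤ dmax (mat G) := by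
  rw [dmax_mat]
  by_cases hu : u < n
  · rw [range_count G hu]
    exact G.degree_le_maxDegree _
  · have : (List.range n).filter (fun w => adj (mat G) u w) = [] := by
      rw [List.filter_eq_nil_iff]
      intro w _ h
      obtain ⟨h1, -⟩ := (adj_mat G).1 h
      exact hu h1
    rw [this]
    simp

theorem dmax_le : dmax (mat G) ≤ n := by
  rw [dmax_mat]
  refine G.maxDegree_le_of_forall_degree_le _ fun v => ?_
  exact (G.degree_lt_card_verts v).le.trans (by simp)

/-- the pairs of opposite vertices of a path with `2 t` vertices -/
def pE (S : List ℕ) (t : ℕ) : ℕ → Ent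
  | 0 => []
  | j + 1 => (S.getD j 0, S.getD (t + j) 0) :: pE S t j

theorem pE_length (S : List ℕ) (t j : ℕ) : (pE S t j).length = j := by
  induction j with
  | zero => rfl
  | succ j ih => simp [pE, ih]

theorem mem_pE {S : List ℕ} {t : ℕ} : ∀ {j u : ℕ}, u ∈ verts (pE S t j) →
    ∃ i, ((i < j) ∨ (t ≤ i ∧ i < t + j)) ∧ u = S.getD i 0 := by
  intro j
  induction j with
  | zero => intro u h; simp [pE] at h
  | succ j ih =>
    intro u h
    rw [pE, verts_cons, List.mem_cons, List.mem_cons] at h
    rcases h with rfl | rfl | h
    · exact ⟨j, by omega, rfl⟩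
    · exact ⟨t + j, by omega, rfl⟩
    · obtain ⟨i, hi, rfl⟩ := ih h
      exact ⟨i, by omega, rfl⟩

theorem pE_nodup {S : List ℕ} {t : ℕ} (hS : S.Nodup) (hlen : S.length = 2 * t) :
    ∀ j ≤ t, (verts (pE S t j)).Nodup := by
  have hinj : ∀ i k, i < 2 * t → k < 2 * t → S.getD i 0 = S.getD k 0 → i = k := by
    intro i k hi hk h
    rw [List.getD_eq_getElem _ _ (by omega), List.getD_eq_getElem _ _ (by omega)] at h
    exact (List.Nodup.getElem_inj_iff hS).1 h
  intro j
  induction j with
  | zero => intro _; simp [pE]
  | succ j ih =>
    intro hj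
    have ih := ih (by omega)
    rw [pE, verts_cons, List.nodup_cons, List.nodup_cons, List.mem_cons, not_or]
    refine ⟨⟨?_, ?_⟩, ?_, ih⟩
    · intro h
      have := hinj _ _ (by omega) (by omega) h
      omega
    · intro h
      obtain ⟨i, hi, h⟩ := mem_pE h
      have := hinj _ _ (by omega) (by omega) h
      omega
    · intro h
      obtain ⟨i, hi, h⟩ := mem_pE h
      have := hinj _ _ (by omega) (by omega) h
      omega

/-- A colouring of all vertices without events is nonrepetitive. -/
theorem nonrep_of_free {σ : List ℕ} {L : ℕ} (hL : 0 < L) (hpos : ∀ u < n, σ.getD u 0 ≠ 0)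
    (hev : ∀ e, ¬ Ev (mat G) σ n L e) : Nonrepetitive G fun v => σ.getD v 0 - 1 := by
  intro u v p hp w hw heq
  set S := p.support.map Fin.val with hS
  set t := w.length with ht
  have htpos : 0 < t := List.length_pos_iff.2 hw
  have hlen : S.length = 2 * t := by
    have := congrArg List.length heq
    rw [List.length_map, List.length_append] at this
    rw [hS, List.length_map, this]
    omega
  have hnd : S.Nodup := (hp.support_nodup).map Fin.val_injective
  have hlt : ∀ i < 2 * t, S.getD i 0 < n := by
    intro i hi
    rw [List.getD_eq_getElem _ _ (by omega)]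
    simp only [hS, List.getElem_map]
    exact Fin.is_lt _
  have hadj : ∀ i, i + 1 < 2 * t → adj (mat G) (S.getD i 0) (S.getD (i + 1) 0) = true := by
    intro i hi
    have h1 := List.isChain_iff_getElem.1 p.isChain_adj_support i (by
      have : p.support.length = S.length := by rw [hS, List.length_map]
      omega)
    rw [adj_mat]
    refine ⟨hlt i (by omega), hlt (i + 1) hi, ?_⟩
    have e1 : S.getD i 0 = (p.support[i]'(by
        have : p.support.length = S.length := by rw [hS, List.length_map]
        omega) : Fin n) := by
      rw [List.getD_eq_getElem _ _ (by omega)]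
      simp only [hS, List.getElem_map]
    have e2 : S.getD (i + 1) 0 = (p.support[i + 1]'(by
        have : p.support.length = S.length := by rw [hS, List.length_map]
        omega) : Fin n) := by
      rw [List.getD_eq_getElem _ _ (by omega)]
      simp only [hS, List.getElem_map]
    convert h1
  have hcol : ∀ i < t, σ.getD (S.getD i 0) 0 = σ.getD (S.getD (t + i) 0) 0 := by
    intro i hi
    have hm : S.map (fun x => σ.getD x 0 - 1) = w ++ w := by
      rw [← heq, hS, List.map_map]
      rfl
    have e1 : ∀ j, j < 2 * t → (S.map fun x => σ.getD x 0 - 1).getD j 0 =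
        σ.getD (S.getD j 0) 0 - 1 := by
      intro j hj
      rw [List.getD_eq_getElem _ _ (by rw [List.length_map]; omega), List.getElem_map,
        List.getD_eq_getElem S _ (by omega)]
    have e2 := e1 i (by omega)
    have e3 := e1 (t + i) (by omega)
    rw [hm] at e2 e3
    have e4 : (w ++ w).getD i 0 = (w ++ w).getD (t + i) 0 := by
      rw [List.getD_append _ _ _ _ hi, List.getD_append_right _ _ _ _ (by omega)]
      congr 1
      omega
    rw [e2, e3] at e4
    have f1 := hpos _ (hlt i (by omega))
    have f2 := hpos _ (hlt (t + i) (by omega))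
    omega
  -- the chain of pairs
  have hch : ∀ j, j + 1 ≤ t →
      Ch (mat G) σ n (S.getD 0 0) (S.getD t 0) (pE S t (j + 1)) := by
    intro j
    induction j with
    | zero =>
      intro _
      exact Ch.base (hlt 0 (by omega)) (hlt t (by omega)) (hcol 0 htpos) (hpos _ (hlt 0 (by omega)))
    | succ j ih =>
      intro hj
      have ih := ih (by omega)
      rw [pE]
      rw [pE] at ih ⊢
      exact Ch.step ih (hlt (j + 1) (by omega)) (hlt (t + (j + 1)) (by omega))
        (hadj j (by omega)) (hadj (t + j) (by omega)) (hcol (j + 1) (by omega))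
        (hpos _ (hlt (j + 1) (by omega)))
  have hpred : ∀ j, 0 < j → j ≤ t → Ch (mat G) σ n (S.getD 0 0) (S.getD t 0) (pE S t j) := by
    intro j h1 h2
    have := hch (j - 1) (by omega)
    rwa [show j - 1 + 1 = j by omega] at this
  by_cases htL : L ≤ t
  · refine hev (pE S t L) ⟨_, _, hpred L hL htL, pE_nodup hnd hlen L htL,
      by rw [pE_length], ?_⟩
    unfold closes
    rw [pE_length]
    simp
  · refine hev (pE S t t) ⟨_, _, hpred t htpos le_rfl, pE_nodup hnd hlen t le_rfl,
      by rw [pE_length]; omega, ?_⟩
    unfold closes
    rw [Bool.or_eq_true]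
    right
    obtain ⟨t', ht'⟩ : ∃ t', t = t' + 1 := ⟨t - 1, by omega⟩
    have h1 : (pE S t t).headD (0, 0) = (S.getD t' 0, S.getD (t + t') 0) := by
      conv_lhs => rw [show pE S t t = pE S t (t' + 1) by rw [← ht'], pE]
      rfl
    rw [h1]
    simp only
    have := hadj t' (by omega)
    rwa [← ht'] at this

end

open Classical in
/-- The output is a nonrepetitive colouring with few colours, except for few random strings. -/
theorem algo_correct {n : ℕ} (hn : 1 ≤ n) (G : SimpleGraph (Fin n)) [DecidableRel G.Adj] {P : ℕ}
    (hP : pN n * n * pq n + pm n * pb (dmax (mat G)) ≤ P) :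
    n * ((BL P).filter fun r => ¬ ((algo (mat G, r)).length = n ∧
      (∀ v : Fin n, (algo (mat G, r)).getD v 0 < max 1 (64 * G.maxDegree ^ 2)) ∧
      Nonrepetitive G fun v => (algo (mat G, r)).getD v 0)).card ≤ 2 ^ P := by
  have hML : (mat G).length = n := mat_length G
  by_cases hD : dmax (mat G) = 0
  · have : (BL P).filter (fun r => ¬ ((algo (mat G, r)).length = n ∧
      (∀ v : Fin n, (algo (mat G, r)).getD v 0 < max 1 (64 * G.maxDegree ^ 2)) ∧
      Nonrepetitive G fun v => (algo (mat G, r)).getD v 0)) = ∅ := by
      rw [Finset.filter_eq_empty_iff]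
      intro r _
      rw [not_not]
      have h1 : algo (mat G, r) = (List.range n).map fun _ => 0 := by
        unfold algo
        rw [hML]
        simp [hD]
      rw [h1]
      refine ⟨by simp, fun v => ?_, ?_⟩
      · rw [getD_map_range _ v.2]
        exact lt_of_lt_of_le Nat.zero_lt_one (le_max_left _ _)
      · intro u v p hp w hw heq
        have h2 : ∀ a b, ¬ G.Adj a b := by
          intro a b hab
          have h3 : 0 < G.degree a := by
            rw [← SimpleGraph.card_neighborFinset_eq_degree, Finset.card_pos]
            exact ⟨b, by simpa using hab⟩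
          have h4 := G.degree_le_maxDegree a
          rw [← dmax_mat, hD] at h4
          omega
        cases p with
        | nil =>
          have := congrArg List.length heq
          simp only [SimpleGraph.Walk.support_nil, List.map_cons, List.map_nil, List.length_cons,
            List.length_nil, List.length_append] at this
          omega
        | cons h _ => exact h2 _ _ h
    rw [this]
    simp
  · have hD1 : 1 ≤ dmax (mat G) := Nat.one_le_iff_ne_zero.2 hD
    have hk := pb_le hD1
    have b1 := bad1 (M := mat G) (by rw [hML]; exact hn) (P := P) (by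
      rw [hML, ← mul_assoc]; omega)
    have b2 := bad2 (M := mat G) (by rw [hML]; exact hn) (adj_mat_symm G)
      (by rw [hML]; exact range_count_le G) hD1 (by rw [hML]; exact dmax_le G) (P := P)
      (by rw [hML]; exact hP)
    rw [hML] at b1 b2
    set X := (BL P).filter fun r =>
      ¬ Perfect (hashes r (pN n) n (pq n)) n (pL n)
    set Y := (BL P).filter fun r => Perfect (hashes r (pN n) n (pq n)) n (pL n) ∧
      Alive (det (mat G) r) n (cols r (pN n * n * pq n) (pm n) (pb (dmax (mat G))))
    have hsub : (BL P).filter (fun r => ¬ ((algo (mat G, r)).length = n ∧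
      (∀ v : Fin n, (algo (mat G, r)).getD v 0 < max 1 (64 * G.maxDegree ^ 2)) ∧
      Nonrepetitive G fun v => (algo (mat G, r)).getD v 0)) ⊆ X ∪ Y := by
      intro r hr
      rw [Finset.mem_filter] at hr
      obtain ⟨hr1, hr2⟩ := hr
      rw [Finset.mem_union, Finset.mem_filter, Finset.mem_filter]
      by_contra hcon
      rw [not_or] at hcon
      obtain ⟨hc1, hc2⟩ := hcon
      have hperf : Perfect (hashes r (pN n) n (pq n)) n (pL n) := by
        by_contra h
        exact hc1 ⟨hr1, h⟩
      have halive : ¬ Alive (det (mat G) r) n
          (cols r (pN n * n * pq n) (pm n) (pb (dmax (mat G)))) := fun h => hc2 ⟨hr1, hperf, h⟩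
      apply hr2
      unfold Alive at halive
      rw [not_not] at halive
      set cs := cols r (pN n * n * pq n) (pm n) (pb (dmax (mat G)))
      have hfin : final (mat G) r = run (det (mat G) r) n cs := by
        unfold final run
        rw [hML]
      have halgo : algo (mat G, r) = (run (det (mat G) r) n cs).map fun c => c - 1 := by
        unfold algo
        simp only [hD, decide_false, cond_false]
        rw [hfin]
      have hrl : (run (det (mat G) r) n cs).length = n := run_length _
      have hget : ∀ v < n, (algo (mat G, r)).getD v 0 =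
          (run (det (mat G) r) n cs).getD v 0 - 1 := by
        intro v hv
        rw [halgo, List.getD_eq_getElem _ _ (by rw [List.length_map, hrl]; exact hv),
          List.getElem_map, List.getD_eq_getElem _ _ (by rw [hrl]; exact hv)]
      have hpos : ∀ u < n, (run (det (mat G) r) n cs).getD u 0 ≠ 0 := by
        intro u hu h0
        unfold free at halive
        rw [List.head?_eq_none_iff, List.filter_eq_nil_iff] at halive
        exact halive u (by simpa using hu) (by simpa using h0)
      have hS := setup (M := mat G) (r := r) (by rw [hML]; exact hn) (by rw [hML]; exact hperf)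
      rw [hML] at hS
      refine ⟨by rw [halgo, List.length_map, hrl], fun v => ?_, ?_⟩
      · rw [hget v v.2]
        have h1 := run_le (n := n) (det := det (mat G) r)
          (cols_lt r (pN n * n * pq n) (pm n) (pb (dmax (mat G)))) v v.2
        have h2 := hpos v v.2
        rw [← dmax_mat]
        refine lt_of_lt_of_le ?_ (le_max_right _ _)
        refine lt_of_lt_of_le ?_ hk
        change (run (det (mat G) r) n cs).getD v 0 - 1 < _
        change (run (det (mat G) r) n cs).getD v 0 ≤ _ at h1
        omega
      · have := nonrep_of_free G (pL_pos n) hpos (event_free hS cs)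
        have h2 : (fun v : Fin n => (algo (mat G, r)).getD v 0) =
            fun v : Fin n => (run (det (mat G) r) n cs).getD v 0 - 1 := by
          funext v
          exact hget v v.2
        rw [h2]
        exact this
    have hc := (Finset.card_le_card hsub).trans (Finset.card_union_le X Y)
    have h3 := Nat.mul_le_mul_left (2 * n) hc
    rw [mul_add] at h3
    have h4 : 2 * n * ((BL P).filter (fun r => ¬ ((algo (mat G, r)).length = n ∧
      (∀ v : Fin n, (algo (mat G, r)).getD v 0 < max 1 (64 * G.maxDegree ^ 2)) ∧
      Nonrepetitive G fun v => (algo (mat G, r)).getD v 0))).card ≤ 2 * 2 ^ P := by omega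
    rw [mul_assoc] at h4
    exact Nat.le_of_mul_le_mul_left h4 (by norm_num)

end Pool.Agent.V11223.NR
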