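import Pool.Agent.V11223.NR.Inj

/-!
# Counting the records
-/

namespace Pool.Agent.V11223.NR

open Pool.Agent.NPC

theorem len_flatMap_le {α β : Type} (l : List α) (f : α → List β) (c : ℕ)
    (h : ∀ a ∈ l, (f a).length ≤ c) : (l.flatMap f).length ≤ l.length * c := by
  induction l with
  | nil => simp
  | cons a l ih =>
    rw [List.flatMap_cons, List.length_append, List.length_cons, Nat.succ_mul]
    have h1 := ih (fun a ha => h a (List.mem_cons_of_mem _ ha))
    have h2 := h a (by simp)
    omega

/-- the walks of length `l` from `v` -/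
def walks (M : List (List Bool)) (n : ℕ) : ℕ → ℕ → List (List ℕ)
  | 0, v => [[v]]
  | l + 1, v => ((List.range n).filter fun u => adj M v u).flatMap fun u =>
      (walks M n l u).map fun w => v :: w

variable {M : List (List Bool)} {n L D : ℕ}

theorem walks_length (hD : ∀ u, ((List.range n).filter fun w => adj M u w).length ≤ D) :
    ∀ l v, (walks M n l v).length ≤ D ^ l := by
  intro l
  induction l with
  | zero => intro v; simp [walks]
  | succ l ih =>
    intro v
    unfold walks
    refine (len_flatMap_le _ _ (D ^ l) fun u _ => by rw [List.length_map]; exact ih u).trans ?_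
    rw [pow_succ, mul_comm]
    exact Nat.mul_le_mul_left _ (hD v)

theorem len_of_mem_walks : ∀ {l v : ℕ} {w : List ℕ}, w ∈ walks M n l v → w.length = l + 1 := by
  intro l
  induction l with
  | zero => intro v w h; simp [walks] at h; simp [h]
  | succ l ih =>
    intro v w h
    unfold walks at h
    rw [List.mem_flatMap] at h
    obtain ⟨u, -, h⟩ := h
    obtain ⟨w', h', rfl⟩ := List.mem_map.1 h
    rw [List.length_cons, ih h']

theorem mem_walks : ∀ (w : List ℕ) (v : ℕ), List.IsChain (fun a b => adj M a b = true) (v :: w) →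
    (∀ u ∈ w, u < n) → v :: w ∈ walks M n w.length v := by
  intro w
  induction w with
  | nil => intro v _ _; simp [walks]
  | cons u w ih =>
    intro v h1 h2
    rw [List.isChain_cons_cons] at h1
    rw [List.length_cons]
    unfold walks
    rw [List.mem_flatMap]
    refine ⟨u, ?_, ?_⟩
    · rw [List.mem_filter, List.mem_range]
      exact ⟨h2 u (by simp), h1.1⟩
    · exact List.mem_map_of_mem (ih u h1.2 fun x hx => h2 x (List.mem_cons_of_mem _ hx))

/-- the pairs of opposite vertices of a path -/
def mkE (t : ℕ) (P : List ℕ) : Ent := (P.take t).reverse.zip (P.drop t).reverse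

/-- closed events with `t` pairs through `v` -/
def evA (M : List (List Bool)) (n t v : ℕ) : List Ent :=
  (List.range (2 * t)).flatMap fun q => (walks M n q v).flatMap fun l1 =>
    (walks M n (2 * t - 1 - q) v).map fun l2 => mkE t (l1.reverse ++ l2.tail)

/-- events of length `L` through `v` -/
def evB (M : List (List Bool)) (n L v : ℕ) : List Ent :=
  (List.range L).flatMap fun j => (walks M n j v).flatMap fun l1 =>
    (walks M n (L - 1 - j) v).flatMap fun l2 => (List.range n).flatMap fun u =>
      (walks M n (L - 1) u).flatMap fun l3 =>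
        [(l1.reverse ++ l2.tail).zip l3, l3.zip (l1.reverse ++ l2.tail)]

/-- all events through `v` -/
def evL (M : List (List Bool)) (n L v : ℕ) : List Ent :=
  ((List.range L).flatMap fun t => evA M n (t + 1) v) ++ evB M n L v

theorem evA_length (hD : ∀ u, ((List.range n).filter fun w => adj M u w).length ≤ D) {t : ℕ}
    (ht : 0 < t) (v : ℕ) : (evA M n t v).length ≤ 2 * t * D ^ (2 * t - 1) := by
  unfold evA
  refine (len_flatMap_le _ _ (D ^ (2 * t - 1)) fun q hq => ?_).trans (by rw [List.length_range])
  rw [List.mem_range] at hq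
  refine (len_flatMap_le _ _ (D ^ (2 * t - 1 - q)) fun l1 _ => by
    rw [List.length_map]; exact walks_length hD _ _).trans ?_
  refine (Nat.mul_le_mul_right _ (walks_length hD _ _)).trans ?_
  rw [← pow_add]
  exact le_of_eq (by congr 1; omega)

theorem evB_length (hD : ∀ u, ((List.range n).filter fun w => adj M u w).length ≤ D)
    (hL : 0 < L) (v : ℕ) :
    (evB M n L v).length ≤ L * (D ^ (L - 1) * (n * (D ^ (L - 1) * 2))) := by
  unfold evB
  refine (len_flatMap_le _ _ (D ^ (L - 1) * (n * (D ^ (L - 1) * 2))) fun q hq => ?_).trans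
    (by rw [List.length_range])
  rw [List.mem_range] at hq
  refine (len_flatMap_le _ _ (D ^ (L - 1 - q) * (n * (D ^ (L - 1) * 2))) fun l1 _ => ?_).trans ?_
  · refine (len_flatMap_le _ _ (n * (D ^ (L - 1) * 2)) fun l2 _ => ?_).trans
      (Nat.mul_le_mul_right _ (walks_length hD _ _))
    refine (len_flatMap_le _ _ (D ^ (L - 1) * 2) fun u _ => ?_).trans (by rw [List.length_range])
    refine (len_flatMap_le _ _ 2 fun l3 _ => by simp).trans ?_
    exact Nat.mul_le_mul_right _ (walks_length hD _ _)
  · refine (Nat.mul_le_mul_right _ (walks_length hD _ _)).trans ?_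
    rw [← mul_assoc, ← pow_add]
    exact le_of_eq (by congr 2; omega)

theorem evA_len {t v : ℕ} {e : Ent} (h : e ∈ evA M n t v) : e.length = t := by
  unfold evA at h
  simp only [List.mem_flatMap, List.mem_range, List.mem_map] at h
  obtain ⟨q, hq, l1, h1, l2, h2, rfl⟩ := h
  have e1 := len_of_mem_walks h1
  have e2 := len_of_mem_walks h2
  unfold mkE
  rw [List.length_zip, List.length_reverse, List.length_reverse, List.length_take,
    List.length_drop, List.length_append, List.length_reverse, List.length_tail]
  omega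

theorem evB_len {v : ℕ} {e : Ent} (hL : 0 < L) (h : e ∈ evB M n L v) : e.length = L := by
  unfold evB at h
  simp only [List.mem_flatMap, List.mem_range, List.mem_cons, List.not_mem_nil, or_false] at h
  obtain ⟨q, hq, l1, h1, l2, h2, u, hu, l3, h3, rfl | rfl⟩ := h <;>
  · have e1 := len_of_mem_walks h1
    have e2 := len_of_mem_walks h2
    have e3 := len_of_mem_walks h3
    rw [List.length_zip, List.length_append, List.length_reverse, List.length_tail]
    omega

/-! ### All events are listed -/

theorem Ch.shape {σ : List ℕ} {a b : ℕ} {e : Ent} (h : Ch M σ n a b e) :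
    ∃ A B, (e.map Prod.fst).reverse = a :: A ∧ (e.map Prod.snd).reverse = b :: B := by
  induction h with
  | base _ _ _ _ => exact ⟨[], [], rfl, rfl⟩
  | @step p e c d _ _ _ _ _ _ _ ih =>
    obtain ⟨A, B, h1, h2⟩ := ih
    refine ⟨A ++ [c], B ++ [d], ?_, ?_⟩
    · rw [List.map_cons, List.reverse_cons, h1]; rfl
    · rw [List.map_cons, List.reverse_cons, h2]; rfl

theorem Ch.fst_chain {σ : List ℕ} {a b : ℕ} {e : Ent} (h : Ch M σ n a b e) :
    List.IsChain (fun x y => adj M y x = true) (e.map Prod.fst) ∧
    List.IsChain (fun x y => adj M y x = true) (e.map Prod.snd) := by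
  induction h with
  | base _ _ _ _ => simp
  | @step p e c d _ _ _ h1 h2 _ _ ih =>
    simp only [List.map_cons] at ih ⊢
    rw [List.isChain_cons_cons, List.isChain_cons_cons]
    exact ⟨⟨h1, ih.1⟩, h2, ih.2⟩

theorem split_walks {P1 P2 : List ℕ} {v : ℕ} (hsym : ∀ u w, adj M u w = adj M w u)
    (hP : List.IsChain (fun x y => adj M x y = true) (P1 ++ v :: P2))
    (hlt : ∀ u ∈ P1 ++ v :: P2, u < n) :
    v :: P1.reverse ∈ walks M n P1.length v ∧ v :: P2 ∈ walks M n P2.length v := by
  rw [List.isChain_split] at hP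
  refine ⟨?_, mem_walks _ _ hP.2 fun u hu => hlt u (by simp [hu])⟩
  have h1 : v :: P1.reverse = (P1 ++ [v]).reverse := by simp
  have := mem_walks (n := n) P1.reverse v (by
    rw [h1, List.isChain_reverse]
    refine hP.1.imp ?_
    intro x y h
    rw [hsym]; exact h) (fun u hu => hlt u (by
      rw [List.mem_reverse] at hu
      simp [hu]))
  rwa [List.length_reverse] at this

theorem zip_fst_snd (e : Ent) : (e.map Prod.fst).zip (e.map Prod.snd) = e := by
  have := List.zip_unzip e
  rwa [List.unzip_eq_map] at this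

theorem mem_evL {σ : List ℕ} {e : Ent} {v : ℕ} (hsym : ∀ u w, adj M u w = adj M w u)
    (h : Ev M σ n L e) (hv : v ∈ verts e) : e ∈ evL M n L v := by
  obtain ⟨a, b, h1, h2, h3, h4⟩ := h
  have hpos := h1.length_pos
  obtain ⟨c1, c2⟩ := h1.fst_chain
  have hlt := h1.verts_lt
  unfold closes at h4
  rw [Bool.or_eq_true, decide_eq_true_eq] at h4
  unfold evL
  rw [List.mem_append]
  rcases h4 with h4 | h4
  · right
    have hv' := (verts_perm e).mem_iff.1 hv
    rw [List.mem_append] at hv'
    have hm : ∀ l : List ℕ, List.IsChain (fun x y => adj M y x = true) l →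
        List.IsChain (fun x y => adj M x y = true) l := by
      intro l hl
      refine hl.imp ?_
      intro x y h
      rw [hsym]; exact h
    have c1 := hm _ c1
    have c2 := hm _ c2
    have f1 : ∀ u ∈ e.map Prod.fst, u < n := fun u hu => hlt u
      ((verts_perm e).mem_iff.2 (List.mem_append_left _ hu))
    have f2 : ∀ u ∈ e.map Prod.snd, u < n := fun u hu => hlt u
      ((verts_perm e).mem_iff.2 (List.mem_append_right _ hu))
    have key : ∀ l l' : List ℕ, List.IsChain (fun x y => adj M x y = true) l →
        List.IsChain (fun x y => adj M x y = true) l' → (∀ u ∈ l, u < n) → (∀ u ∈ l', u < n) →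
        l.length = L → l'.length = L → v ∈ l →
        ∃ j < L, ∃ l1 ∈ walks M n j v, ∃ l2 ∈ walks M n (L - 1 - j) v, ∃ u < n,
          ∃ l3 ∈ walks M n (L - 1) u, l = l1.reverse ++ l2.tail ∧ l' = l3 := by
      intro l l' g1 g2 g3 g4 g5 g6 g7
      obtain ⟨P1, P2, rfl⟩ := List.append_of_mem g7
      obtain ⟨k1, k2⟩ := split_walks hsym g1 g3
      rw [List.length_append, List.length_cons] at g5
      cases l' with
      | nil => simp at g6; omega
      | cons u w =>
        rw [List.length_cons] at g6
        refine ⟨P1.length, by omega, _, k1, v :: P2, ?_, u, g4 u (by simp), _, ?_, ?_, rfl⟩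
        · rw [show L - 1 - P1.length = P2.length by omega]; exact k2
        · rw [show L - 1 = w.length by omega]
          exact mem_walks _ _ g2 fun x hx => g4 x (List.mem_cons_of_mem _ hx)
        · simp
    unfold evB
    simp only [List.mem_flatMap, List.mem_range, List.mem_cons, List.not_mem_nil, or_false]
    rcases hv' with hv' | hv'
    · obtain ⟨j, hj, l1, k1, l2, k2, u, hu, l3, k3, k4, k5⟩ := key _ _ c1 c2 f1 f2 (by simp [h4])
        (by simp [h4]) hv'
      refine ⟨j, hj, l1, k1, l2, k2, u, hu, l3, k3, Or.inl ?_⟩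
      rw [← k4, ← k5, zip_fst_snd]
    · obtain ⟨j, hj, l1, k1, l2, k2, u, hu, l3, k3, k4, k5⟩ := key _ _ c2 c1 f2 f1 (by simp [h4])
        (by simp [h4]) hv'
      refine ⟨j, hj, l1, k1, l2, k2, u, hu, l3, k3, Or.inr ?_⟩
      rw [← k4, ← k5, zip_fst_snd]
  · left
    rw [List.mem_flatMap]
    refine ⟨e.length - 1, by rw [List.mem_range]; omega, ?_⟩
    rw [show e.length - 1 + 1 = e.length by omega]
    obtain ⟨A, B, s1, s2⟩ := h1.shape
    have hP : List.IsChain (fun x y => adj M x y = true)
        ((e.map Prod.fst).reverse ++ (e.map Prod.snd).reverse) := by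
      rw [List.isChain_append, List.isChain_reverse, List.isChain_reverse]
      refine ⟨c1, c2, ?_⟩
      intro x hx y hy
      rw [s2] at hy
      simp only [List.head?_cons, Option.mem_def, Option.some.injEq] at hy
      subst hy
      rw [List.getLast?_reverse] at hx
      cases e with
      | nil => simp at hpos
      | cons p e =>
        simp only [List.map_cons, List.head?_cons, Option.mem_def, Option.some.injEq] at hx
        subst hx
        exact h4
    have hvP : v ∈ (e.map Prod.fst).reverse ++ (e.map Prod.snd).reverse := by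
      have := (verts_perm e).mem_iff.1 hv
      rw [List.mem_append] at this ⊢
      rwa [List.mem_reverse, List.mem_reverse]
    have hltP : ∀ u ∈ (e.map Prod.fst).reverse ++ (e.map Prod.snd).reverse, u < n := by
      intro u hu
      refine hlt u ((verts_perm e).mem_iff.2 ?_)
      rw [List.mem_append] at hu ⊢
      rwa [List.mem_reverse, List.mem_reverse] at hu
    obtain ⟨P1, P2, hP12⟩ := List.append_of_mem hvP
    have hlen : P1.length + (P2.length + 1) = 2 * e.length := by
      have := congrArg List.length hP12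
      simp only [List.length_append, List.length_reverse, List.length_map, List.length_cons] at this
      omega
    rw [hP12] at hP hltP
    obtain ⟨k1, k2⟩ := split_walks hsym hP hltP
    unfold evA
    simp only [List.mem_flatMap, List.mem_range, List.mem_map]
    refine ⟨P1.length, by omega, _, k1, v :: P2, ?_, ?_⟩
    · rw [show 2 * e.length - 1 - P1.length = P2.length by omega]; exact k2
    · have : (v :: P1.reverse).reverse ++ (v :: P2).tail = P1 ++ v :: P2 := by simp
      rw [this, ← hP12]
      unfold mkE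
      rw [List.take_left' (by simp), List.drop_left' (by simp), List.reverse_reverse,
        List.reverse_reverse, zip_fst_snd]

/-! ### Weights -/

/-- the total weight of a list of events -/
def wsum (z : ℚ) (l : List Ent) : ℚ := (l.map fun e => z ^ e.length).sum

theorem wsum_le {z : ℚ} {l : List Ent} {t c : ℕ} (hz : 0 ≤ z) (h : ∀ e ∈ l, e.length = t)
    (hc : l.length ≤ c) : wsum z l ≤ c * z ^ t := by
  unfold wsum
  have h1 : l.map (fun e => z ^ e.length) = l.map fun _ => z ^ t :=
    List.map_congr_left fun e he => by rw [h e he]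
  rw [h1, List.map_const', List.sum_replicate, nsmul_eq_mul]
  exact mul_le_mul_of_nonneg_right (by exact_mod_cast hc) (pow_nonneg hz _)

theorem wsum_append (z : ℚ) (l l' : List Ent) : wsum z (l ++ l') = wsum z l + wsum z l' := by
  simp [wsum]

theorem wsum_flatMap_range (z : ℚ) (f : ℕ → List Ent) (m : ℕ) :
    wsum z ((List.range m).flatMap f) = ∑ t ∈ Finset.range m, wsum z (f t) := by
  induction m with
  | zero => simp [wsum]
  | succ m ih =>
    rw [List.range_succ, List.flatMap_append, wsum_append, ih, Finset.sum_range_succ]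
    simp

theorem wA (hD : ∀ u, ((List.range n).filter fun w => adj M u w).length ≤ D) (hD1 : 1 ≤ D)
    (t v : ℕ) : wsum (1 / (8 * D ^ 2)) (evA M n (t + 1) v) ≤ (1 / 4) ^ (t + 1) := by
  have hD0 : (0 : ℚ) < D := by exact_mod_cast hD1
  refine (wsum_le (by positivity) (fun e he => evA_len he)
    (evA_length hD (Nat.succ_pos t) v)).trans ?_
  have h1 : 2 * (t + 1) * D ^ (2 * (t + 1) - 1) ≤ 2 ^ (t + 1) * (D ^ 2) ^ (t + 1) := by
    refine Nat.mul_le_mul ?_ ?_
    · have : t + 1 ≤ 2 ^ t := Nat.lt_two_pow_self
      rw [pow_succ]; omega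
    · rw [← pow_mul]
      exact Nat.pow_le_pow_right hD1 (by omega)
  have h2 : ((2 * (t + 1) * D ^ (2 * (t + 1) - 1) : ℕ) : ℚ) ≤ 2 ^ (t + 1) * (D ^ 2) ^ (t + 1) := by
    exact_mod_cast h1
  refine (mul_le_mul_of_nonneg_right h2 (by positivity)).trans (le_of_eq ?_)
  rw [← mul_pow, ← mul_pow]
  congr 1
  field_simp
  norm_num

theorem wB (hD : ∀ u, ((List.range n).filter fun w => adj M u w).length ≤ D) (hD1 : 1 ≤ D)
    (hL : 0 < L) (hn : 4 * n ≤ 4 ^ L) (v : ℕ) :
    wsum (1 / (8 * D ^ 2)) (evB M n L v) ≤ 1 / 4 := by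
  have hD0 : (0 : ℚ) < D := by exact_mod_cast hD1
  refine (wsum_le (by positivity) (fun e he => evB_len hL he) (evB_length hD hL v)).trans ?_
  have h1 : L * (D ^ (L - 1) * (n * (D ^ (L - 1) * 2))) ≤ n * (2 ^ L * (D ^ 2) ^ L) := by
    have e1 : 2 * L ≤ 2 ^ L := by
      obtain ⟨l, rfl⟩ : ∃ l, L = l + 1 := ⟨L - 1, by omega⟩
      have : l + 1 ≤ 2 ^ l := Nat.lt_two_pow_self
      rw [pow_succ]; omega
    have e2 : D ^ (L - 1) * D ^ (L - 1) ≤ (D ^ 2) ^ L := by
      rw [← pow_add, ← pow_mul]
      exact Nat.pow_le_pow_right hD1 (by omega)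
    calc L * (D ^ (L - 1) * (n * (D ^ (L - 1) * 2)))
        = n * ((2 * L) * (D ^ (L - 1) * D ^ (L - 1))) := by ring
      _ ≤ n * (2 ^ L * (D ^ 2) ^ L) := Nat.mul_le_mul_left _ (Nat.mul_le_mul e1 e2)
  have h2 : ((L * (D ^ (L - 1) * (n * (D ^ (L - 1) * 2))) : ℕ) : ℚ) ≤
      n * (2 ^ L * (D ^ 2) ^ L) := by exact_mod_cast h1
  refine (mul_le_mul_of_nonneg_right h2 (by positivity)).trans ?_
  have h3 : (n : ℚ) * (2 ^ L * (D ^ 2) ^ L) * (1 / (8 * D ^ 2)) ^ L = n * (1 / 4) ^ L := by
    rw [mul_assoc, ← mul_pow, ← mul_pow]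
    congr 2
    field_simp
    norm_num
  rw [h3]
  have h4 : (4 * n : ℚ) ≤ 4 ^ L := by exact_mod_cast hn
  rw [one_div, inv_pow, ← div_eq_mul_inv, div_le_iff₀ (by positivity)]
  linarith

theorem geom (L : ℕ) : ∑ t ∈ Finset.range L, (1 / 4 : ℚ) ^ (t + 1) ≤ 1 / 3 - 1 / 3 * (1 / 4) ^ L := by
  induction L with
  | zero => simp
  | succ L ih =>
    rw [Finset.sum_range_succ]
    refine (add_le_add_left ih _).trans (le_of_eq ?_)
    rw [pow_succ]; ring

theorem wL (hD : ∀ u, ((List.range n).filter fun w => adj M u w).length ≤ D) (hD1 : 1 ≤ D)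
    (hL : 0 < L) (hn : 4 * n ≤ 4 ^ L) (v : ℕ) :
    wsum (1 / (8 * D ^ 2)) (evL M n L v) ≤ 1 := by
  unfold evL
  rw [wsum_append, wsum_flatMap_range]
  have h1 := wB hD hD1 hL hn v
  have h2 : ∑ t ∈ Finset.range L, wsum (1 / (8 * D ^ 2)) (evA M n (t + 1) v) ≤
      ∑ t ∈ Finset.range L, (1 / 4 : ℚ) ^ (t + 1) :=
    Finset.sum_le_sum fun t _ => wA hD hD1 t v
  have h3 := geom L
  have h4 : (0 : ℚ) ≤ 1 / 3 * (1 / 4) ^ L := by positivity
  linarith

/-- all records -/
def RS (M : List (List Bool)) (n L : ℕ) : ℕ → List (List (Option Ent))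
  | 0 => [[]]
  | m + 1 => (RS M n L m).flatMap fun R =>
      (none :: (evL M n L (nxt n (supp n R))).map some).map fun o => o :: R

theorem RS_sum (hD : ∀ u, ((List.range n).filter fun w => adj M u w).length ≤ D) (hD1 : 1 ≤ D)
    (hL : 0 < L) (hn : 4 * n ≤ 4 ^ L) (m : ℕ) :
    ((RS M n L m).map fun R => (1 / (8 * D ^ 2) : ℚ) ^ era R).sum ≤ 2 ^ m := by
  induction m with
  | zero => simp [RS, era]
  | succ m ih =>
    have key : ∀ l : List (List (Option Ent)),
        ((l.flatMap fun R => (none :: (evL M n L (nxt n (supp n R))).map some).map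
          fun o => o :: R).map fun R => (1 / (8 * D ^ 2) : ℚ) ^ era R).sum ≤
        2 * (l.map fun R => (1 / (8 * D ^ 2) : ℚ) ^ era R).sum := by
      intro l
      induction l with
      | nil => simp
      | cons R l ih =>
        rw [List.flatMap_cons, List.map_append, List.sum_append, List.map_cons (l := l),
          List.sum_cons]
        have h1 : (((none :: (evL M n L (nxt n (supp n R))).map some).map
          fun o => o :: R).map fun R => (1 / (8 * D ^ 2) : ℚ) ^ era R).sum =
          (1 + wsum (1 / (8 * D ^ 2)) (evL M n L (nxt n (supp n R)))) *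
            (1 / (8 * D ^ 2) : ℚ) ^ era R := by
          rw [List.map_cons, List.map_cons, List.sum_cons, List.map_map, List.map_map, add_mul,
            one_mul]
          congr 1
          unfold wsum
          rw [← List.sum_map_mul_right]
          congr 1
          refine List.map_congr_left fun e _ => ?_
          simp only [Function.comp_apply]
          rw [← pow_add]
          rfl
        rw [h1]
        have h2 := wL hD hD1 hL hn (nxt n (supp n R))
        have h3 : (0 : ℚ) ≤ (1 / (8 * D ^ 2) : ℚ) ^ era R := by positivity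
        have h4 := mul_le_mul_of_nonneg_right (add_le_add_right h2 1) h3
        linarith
    calc _ ≤ 2 * ((RS M n L m).map fun R => (1 / (8 * D ^ 2) : ℚ) ^ era R).sum := key _
      _ ≤ 2 * 2 ^ m := by linarith
      _ = 2 ^ (m + 1) := by ring

theorem recd_mem_RS {det : List ℕ → Option Ent} (hsym : ∀ u w, adj M u w = adj M w u)
    (S : Setup M n L det) {xs : List ℕ} (h : Alive det n xs) :
    recd det n xs ∈ RS M n L xs.length := by
  induction xs with
  | nil => simp [recd, RS]
  | cons x xs ih =>
    have hA := h.tail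
    have ih := ih hA
    obtain ⟨v, hv⟩ := Option.ne_none_iff_exists'.1 hA
    have hs := supp_recd S hA
    rw [List.length_cons]
    unfold recd RS
    rw [List.mem_flatMap]
    refine ⟨_, ih, ?_⟩
    rw [hv]
    simp only
    refine List.mem_map.2 ⟨_, ?_, rfl⟩
    rw [hs, free_eq_nxt hv]
    cases h1 : det (setc (List.range n) (run det n xs) v (x + 1)) with
    | none => simp
    | some e =>
      refine List.mem_cons_of_mem _ (List.mem_map_of_mem ?_)
      exact mem_evL hsym (S.sound _ _ h1) (found S h1)

/-- the records which can occur -/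
noncomputable def recs (M : List (List Bool)) (n L m : ℕ) : Finset (List (Option Ent)) :=
  ((RS M n L m).filter fun R => decide (era R ≤ m)).toFinset

theorem recs_card (hD : ∀ u, ((List.range n).filter fun w => adj M u w).length ≤ D) (hD1 : 1 ≤ D)
    (hL : 0 < L) (hn : 4 * n ≤ 4 ^ L) (m : ℕ) :
    (recs M n L m).card ≤ (16 * D ^ 2) ^ m := by
  have hD0 : (0 : ℚ) < D := by exact_mod_cast hD1
  have hD1' : (1 : ℚ) ≤ D := by exact_mod_cast hD1
  have hz1 : (1 / (8 * D ^ 2) : ℚ) ≤ 1 := by
    rw [div_le_one (by positivity)]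
    nlinarith
  have key : ∀ l : List (List (Option Ent)),
      ((l.filter fun R => decide (era R ≤ m)).length : ℚ) * (1 / (8 * D ^ 2) : ℚ) ^ m ≤
        (l.map fun R => (1 / (8 * D ^ 2) : ℚ) ^ era R).sum := by
    intro l
    induction l with
    | nil => simp
    | cons R l ih =>
      rw [List.filter_cons, List.map_cons, List.sum_cons]
      by_cases hR : era R ≤ m
      · simp only [hR, decide_true, if_true]
        rw [List.length_cons]
        push_cast
        have : (1 / (8 * D ^ 2) : ℚ) ^ m ≤ (1 / (8 * D ^ 2) : ℚ) ^ era R :=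
          pow_le_pow_of_le_one (by positivity) hz1 hR
        linarith
      · simp only [hR, decide_false, Bool.false_eq_true, if_false]
        have : (0 : ℚ) ≤ (1 / (8 * D ^ 2) : ℚ) ^ era R := by positivity
        linarith
  have h1 := (key (RS M n L m)).trans (RS_sum hD hD1 hL hn m)
  have h2 : (((RS M n L m).filter fun R => decide (era R ≤ m)).length : ℚ) ≤ (16 * D ^ 2) ^ m := by
    rw [one_div, inv_pow, ← div_eq_mul_inv, div_le_iff₀ (by positivity)] at h1
    refine h1.trans (le_of_eq ?_)
    rw [← mul_pow]
    congr 1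
    ring
  have h3 : ((RS M n L m).filter fun R => decide (era R ≤ m)).length ≤ (16 * D ^ 2) ^ m := by
    exact_mod_cast h2
  exact (List.toFinset_card_le _).trans h3

theorem recd_mem_recs {det : List ℕ → Option Ent} (hsym : ∀ u w, adj M u w = adj M w u)
    (S : Setup M n L det) {xs : List ℕ} (h : Alive det n xs) :
    recd det n xs ∈ recs M n L xs.length := by
  unfold recs
  rw [List.mem_toFinset, List.mem_filter]
  refine ⟨recd_mem_RS hsym S h, ?_⟩
  have := card_recd S h
  simp only [decide_eq_true_eq]
  omega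

/-- the partial colourings -/
noncomputable def sts (n k : ℕ) : Finset (List ℕ) :=
  (Finset.univ : Finset (Fin n → Fin (k + 1))).image fun f => List.ofFn fun i => (f i : ℕ)

theorem sts_card (n k : ℕ) : (sts n k).card ≤ (k + 1) ^ n := by
  refine Finset.card_image_le.trans (le_of_eq ?_)
  simp

theorem run_le {det : List ℕ → Option Ent} {k : ℕ} {xs : List ℕ} (h : ∀ x ∈ xs, x < k) :
    ∀ i < n, (run det n xs).getD i 0 ≤ k := by
  induction xs with
  | nil =>
    intro i hi
    unfold run
    rw [List.foldr_nil, getD_map_range _ hi]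
    exact Nat.zero_le _
  | cons x xs ih =>
    have ih := ih fun x hx => h x (List.mem_cons_of_mem _ hx)
    have hx := h x (by simp)
    intro i hi
    rw [run_cons]
    unfold step
    split
    · exact ih i hi
    · rename_i v _
      have h1 : (setc (List.range n) (run det n xs) v (x + 1)).getD i 0 ≤ k := by
        rw [setc_getD _ _ _ hi]
        split_ifs
        · omega
        · exact ih i hi
      unfold stepAt
      split
      · exact h1
      · rw [uncol_getD _ _ hi]
        split_ifs
        · exact Nat.zero_le _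
        · exact h1

theorem run_mem_sts {det : List ℕ → Option Ent} {k : ℕ} {xs : List ℕ} (h : ∀ x ∈ xs, x < k) :
    run det n xs ∈ sts n k := by
  unfold sts
  rw [Finset.mem_image]
  refine ⟨fun i => ⟨(run det n xs).getD i 0, Nat.lt_succ_of_le (run_le h i i.2)⟩,
    Finset.mem_univ _, ?_⟩
  refine ext_getD (n := n) (by simp) (run_length _) fun i hi => ?_
  rw [List.getD_eq_getElem _ _ (by simpa using hi), List.getElem_ofFn]

end Pool.Agent.V11223.NR
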