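import Pool.Agent.V11223.NR.Alg

/-!
# The detection of events
-/

namespace Pool.Agent.V11223.NR

open Pool.Agent.NPC

@[simp] theorem verts_nil : verts [] = [] := rfl
@[simp] theorem verts_cons (p : ℕ × ℕ) (e : Ent) : verts (p :: e) = p.1 :: p.2 :: verts e := by
  simp [verts]
@[simp] theorem hv_nil (h : List ℕ) : hv h [] = [] := rfl
@[simp] theorem hv_cons (h : List ℕ) (p : ℕ × ℕ) (e : Ent) :
    hv h (p :: e) = h.getD p.1 0 :: h.getD p.2 0 :: hv h e := by simp [hv]

/-- Chains of equally coloured pairs starting with `(a, b)`. -/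
inductive Ch (M : List (List Bool)) (σ : List ℕ) (n a b : ℕ) : Ent → Prop
  | base : a < n → b < n → σ.getD a 0 = σ.getD b 0 → σ.getD a 0 ≠ 0 → Ch M σ n a b [(a, b)]
  | step {p : ℕ × ℕ} {e : Ent} {c d : ℕ} : Ch M σ n a b (p :: e) → c < n → d < n →
      adj M p.1 c = true → adj M p.2 d = true → σ.getD c 0 = σ.getD d 0 → σ.getD c 0 ≠ 0 →
      Ch M σ n a b ((c, d) :: p :: e)

/-- Events: chains of at most `L` pairs, without repeated vertices, which are closed or of
length `L`. -/
def Ev (M : List (List Bool)) (σ : List ℕ) (n L : ℕ) (e : Ent) : Prop :=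
  ∃ a b, Ch M σ n a b e ∧ (verts e).Nodup ∧ e.length ≤ L ∧ closes M L b e = true

theorem okc_iff {σ h : List ℕ} {e : Ent} {a b : ℕ} (he : (hv h e).Nodup) :
    okc σ h e a b = true ↔ (σ.getD a 0 = σ.getD b 0 ∧ σ.getD a 0 ≠ 0) ∧
      (hv h ((a, b) :: e)).Nodup := by
  simp only [okc, Bool.and_eq_true, decide_eq_true_eq, Bool.not_eq_true', decide_eq_false_iff_not,
    hv_cons, List.nodup_cons, List.mem_cons, not_or]
  tauto

/-- the levels -/
def lev (M : List (List Bool)) (σ h vs ks : List ℕ) (ms : List (List Bool)) (a b : ℕ) :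
    ℕ → List Ent
  | 0 => base σ h a b
  | t + 1 => nextLev M σ h vs ks ms (lev M σ h vs ks ms a b t)

theorem fold_lev (M : List (List Bool)) (σ h vs ks : List ℕ) (ms : List (List Bool)) (a b : ℕ)
    (Ls : List Unit) :
    Ls.foldl (fun (s : List Ent × List Ent) _ => (nextLev M σ h vs ks ms s.1, s.2 ++ s.1))
      (base σ h a b, []) = (lev M σ h vs ks ms a b Ls.length,
        (List.range Ls.length).flatMap (lev M σ h vs ks ms a b)) := by
  induction Ls using List.reverseRecOn with
  | nil => rfl
  | append_singleton Ls x ih =>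
    rw [List.foldl_append, ih, List.foldl_cons, List.foldl_nil, List.length_append,
      List.length_singleton, List.range_succ, List.flatMap_append]
    simp [lev]

theorem mem_hd1 {β : Type} {l : List β} {x : β} (h : x ∈ hd1 l) : x ∈ l := by
  cases l with
  | nil => simp [hd1] at h
  | cons y l => simp [hd1] at h; simp [h]

theorem hd1_ne {β : Type} {l : List β} {x : β} (h : x ∈ l) : ∃ y, y ∈ hd1 l := by
  cases l with
  | nil => simp at h
  | cons y l => exact ⟨y, by simp [hd1]⟩

theorem lev_sound {M : List (List Bool)} {σ h ks : List ℕ} {ms : List (List Bool)} {n a b : ℕ}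
    (ha : a < n) (hb : b < n) :
    ∀ t, ∀ e ∈ lev M σ h (List.range n) ks ms a b t,
      Ch M σ n a b e ∧ (hv h e).Nodup ∧ e.length = t + 1 := by
  intro t
  induction t with
  | zero =>
    intro e he
    unfold lev base at he
    cases hok : okc σ h [] a b with
    | false => rw [hok] at he; simp at he
    | true =>
      rw [hok] at he
      simp only [cond_true, List.mem_singleton] at he
      subst he
      rw [okc_iff (by simp)] at hok
      exact ⟨Ch.base ha hb hok.1.1 hok.1.2, hok.2, rfl⟩
  | succ t ih =>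
    intro e he
    unfold lev nextLev pick at he
    simp only [List.mem_flatMap] at he
    obtain ⟨x, -, y, -, w, -, he⟩ := he
    have he := mem_hd1 he
    have he := (List.mem_filter.1 he).1
    simp only [List.mem_flatMap] at he
    obtain ⟨e', he', he⟩ := he
    obtain ⟨h1, h2, h3⟩ := ih e' he'
    unfold extOf extAt at he
    simp only [List.mem_flatMap, List.mem_range] at he
    obtain ⟨c, hc, d, hd, he⟩ := he
    cases hok : (adj M (e'.headD (0, 0)).1 c && adj M (e'.headD (0, 0)).2 d) && okc σ h e' c d with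
    | false => rw [hok] at he; simp at he
    | true =>
      rw [hok] at he
      simp only [cond_true, List.mem_singleton] at he
      subst he
      simp only [Bool.and_eq_true] at hok
      obtain ⟨⟨h4, h5⟩, h6⟩ := hok
      rw [okc_iff h2] at h6
      cases e' with
      | nil => simp at h3
      | cons p e' =>
        exact ⟨Ch.step h1 hc hd h4 h5 h6.1.1 h6.1.2, h6.2, by simp [h3]⟩

theorem mask_eq_iff {ks h : List ℕ} {e e' : Ent} (h1 : mask ks h e = mask ks h e') :
    ∀ i ∈ ks, (i ∈ hv h e ↔ i ∈ hv h e') := by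
  intro i hi
  unfold mask at h1
  rw [List.map_inj_left] at h1
  simpa using h1 i hi

theorem lev_complete {M : List (List Bool)} {σ h ks : List ℕ} {ms : List (List Bool)} {n a b : ℕ}
    (hks : ∀ u < n, h.getD u 0 ∈ ks) (hms : ∀ w : List Bool, w.length = ks.length → w ∈ ms) :
    ∀ e, Ch M σ n a b e → (hv h e).Nodup →
      ∃ e' ∈ lev M σ h (List.range n) ks ms a b (e.length - 1),
        e'.headD (0, 0) = e.headD (0, 0) ∧ mask ks h e' = mask ks h e := by
  intro e he
  induction he with
  | base ha hb h1 h2 =>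
    intro hnd
    refine ⟨[(a, b)], ?_, rfl, rfl⟩
    have : okc σ h [] a b = true := (okc_iff (by simp)).2 ⟨⟨h1, h2⟩, hnd⟩
    simp [lev, base, this]
  | @step p e c d hch hc hd h1 h2 h3 h4 ih =>
    intro hnd
    have hnd1 : (hv h (p :: e)).Nodup := by
      rw [hv_cons] at hnd
      exact (List.nodup_cons.1 (List.nodup_cons.1 hnd).2).2
    obtain ⟨e', he', h5, h6⟩ := ih hnd1
    simp only [List.length_cons, Nat.add_sub_cancel] at he' ⊢
    have hch' : (hv h e').Nodup ∧ e'.length = e.length + 1 := by
      have hab : a < n ∧ b < n := by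
        clear * - hch
        generalize hE : p :: e = E at hch
        clear hE
        induction hch with
        | base h1 h2 _ _ => exact ⟨h1, h2⟩
        | step _ _ _ _ _ _ _ ih => exact ih
      exact (lev_sound hab.1 hab.2 _ _ he').2
    have h7 : e'.headD (0, 0) = p := by rw [h5]; rfl
    have hnd2 : (hv h ((c, d) :: e')).Nodup := by
      rw [hv_cons] at hnd ⊢
      rw [List.nodup_cons, List.nodup_cons, List.mem_cons, not_or] at hnd ⊢
      refine ⟨⟨hnd.1.1, ?_⟩, ?_, hch'.1⟩
      · rw [mask_eq_iff h6 _ (hks _ hc)]; exact hnd.1.2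
      · rw [mask_eq_iff h6 _ (hks _ hd)]; exact hnd.2.1
    have hmem : (c, d) :: e' ∈ (lev M σ h (List.range n) ks ms a b e.length).flatMap
        (extOf M σ h (List.range n)) := by
      rw [List.mem_flatMap]
      refine ⟨e', he', ?_⟩
      unfold extOf extAt
      simp only [List.mem_flatMap, List.mem_range]
      refine ⟨c, hc, d, hd, ?_⟩
      rw [h7, h1, h2]
      have : okc σ h e' c d = true := (okc_iff hch'.1).2 ⟨⟨h3, h4⟩, hnd2⟩
      simp [this]
    have hm2 : mask ks h ((c, d) :: e') = mask ks h ((c, d) :: p :: e) := by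
      unfold mask
      refine List.map_congr_left fun i hi => ?_
      have := mask_eq_iff h6 i hi
      rw [decide_eq_decide]
      rw [hv_cons h (c, d) e', hv_cons h (c, d) (p :: e)]
      simp only [List.mem_cons]
      rw [this]
    obtain ⟨y, hy⟩ := hd1_ne (l := ((lev M σ h (List.range n) ks ms a b e.length).flatMap
      (extOf M σ h (List.range n))).filter (keyB h ks c d (mask ks h ((c, d) :: e'))))
        (x := (c, d) :: e') (by
          rw [List.mem_filter]
          exact ⟨hmem, by simp [keyB]⟩)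
    have hy2 := (List.mem_filter.1 (mem_hd1 hy)).2
    simp only [keyB, Bool.and_eq_true, decide_eq_true_eq] at hy2
    refine ⟨y, ?_, hy2.1, hy2.2.trans hm2⟩
    unfold lev nextLev pick
    simp only [List.mem_flatMap, List.mem_range]
    exact ⟨c, hc, d, hd, mask ks h ((c, d) :: e'), hms _ (by simp [mask]), hy⟩

/-- A family of hash functions which separates the vertices of every short sequence. -/
def Perfect (H : List (List ℕ)) (n L : ℕ) : Prop :=
  ∀ e : Ent, (∀ u ∈ verts e, u < n) → e.length ≤ L → (verts e).Nodup → ∃ h ∈ H, (hv h e).Nodup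

theorem Ch.verts_lt {M : List (List Bool)} {σ : List ℕ} {n a b : ℕ} {e : Ent}
    (h : Ch M σ n a b e) : ∀ u ∈ verts e, u < n := by
  induction h with
  | base h1 h2 _ _ => intro u hu; simp at hu; rcases hu with rfl | rfl <;> assumption
  | step _ h1 h2 _ _ _ _ ih =>
    intro u hu
    rw [verts_cons, List.mem_cons, List.mem_cons] at hu
    rcases hu with rfl | rfl | hu
    · exact h1
    · exact h2
    · exact ih u hu

theorem Ch.ab_lt {M : List (List Bool)} {σ : List ℕ} {n a b : ℕ} {e : Ent}
    (h : Ch M σ n a b e) : a < n ∧ b < n := by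
  induction h with
  | base h1 h2 _ _ => exact ⟨h1, h2⟩
  | step _ _ _ _ _ _ _ ih => exact ih

theorem Ch.length_pos {M : List (List Bool)} {σ : List ℕ} {n a b : ℕ} {e : Ent}
    (h : Ch M σ n a b e) : 0 < e.length := by
  cases h <;> simp

theorem mem_cands {M : List (List Bool)} {σ h vs ks : List ℕ} {ms : List (List Bool)}
    {Ls : List Unit} {a b : ℕ} {e : Ent} :
    e ∈ cands M σ h vs ks ms Ls a b ↔ (∃ t < Ls.length, e ∈ lev M σ h vs ks ms a b t) ∧
      closes M Ls.length b e = true := by
  unfold cands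
  rw [fold_lev, List.mem_filter, List.mem_flatMap]
  simp

theorem detect_sound {M : List (List Bool)} {H : List (List ℕ)} {ks : List ℕ}
    {ms : List (List Bool)} {Ls : List Unit} {n : ℕ} {σ : List ℕ} {e : Ent}
    (h : detect M H (List.range n) ks ms Ls σ = some e) : Ev M σ n Ls.length e := by
  unfold detect at h
  have h := List.mem_of_mem_head? h
  simp only [List.mem_flatMap, List.mem_range] at h
  obtain ⟨g, -, a, ha, b, hb, h⟩ := h
  rw [mem_cands] at h
  obtain ⟨⟨t, ht, h⟩, h1⟩ := h
  obtain ⟨h2, h3, h4⟩ := lev_sound ha hb t e h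
  exact ⟨a, b, h2, List.Nodup.of_map _ h3, by omega, h1⟩

theorem detect_complete {M : List (List Bool)} {H : List (List ℕ)} {ks : List ℕ}
    {ms : List (List Bool)} {Ls : List Unit} {n : ℕ} {σ : List ℕ}
    (hks : ∀ h ∈ H, ∀ u < n, h.getD u 0 ∈ ks)
    (hms : ∀ w : List Bool, w.length = ks.length → w ∈ ms) (hH : Perfect H n Ls.length)
    (h : detect M H (List.range n) ks ms Ls σ = none) (e : Ent) : ¬ Ev M σ n Ls.length e := by
  rintro ⟨a, b, h1, h2, h3, h4⟩
  obtain ⟨g, hg, h5⟩ := hH e h1.verts_lt h3 h2
  obtain ⟨e', h6, h7, h8⟩ := lev_complete (hks g hg) hms e h1 h5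
  obtain ⟨ha, hb⟩ := h1.ab_lt
  have hpos := h1.length_pos
  unfold detect at h
  rw [List.head?_eq_none_iff] at h
  have : e' ∈ H.flatMap fun h => (List.range n).flatMap fun a => (List.range n).flatMap fun b =>
      cands M σ h (List.range n) ks ms Ls a b := by
    simp only [List.mem_flatMap, List.mem_range]
    refine ⟨g, hg, a, ha, b, hb, ?_⟩
    rw [mem_cands]
    refine ⟨⟨_, by omega, h6⟩, ?_⟩
    have h9 := (lev_sound ha hb _ e' h6).2.2
    unfold closes at h4 ⊢
    rw [h7, h9, show e.length - 1 + 1 = e.length by omega]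
    exact h4
  rw [h] at this
  simp at this

end Pool.Agent.V11223.NR
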