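import Pool.Agent.V11223.NR.Det

/-!
# Random hash functions
-/

namespace Pool.Agent.V11223.NR

open Pool.Agent.NPC

/-! ### Functions which are injective on a set -/

theorem inj_step {n Q : ℕ} (T : Finset (Fin n)) (u : Fin n) (hu : u ∉ T) :
    (Finset.univ.filter fun h : Fin n → Fin Q => Set.InjOn h (T : Set (Fin n))).card * (Q - T.card) ≤
    (Finset.univ.filter fun h : Fin n → Fin Q =>
      Set.InjOn h ((insert u T : Finset (Fin n)) : Set (Fin n))).card * Q := by
  classical
  set A := Finset.univ.filter fun h : Fin n → Fin Q => Set.InjOn h (T : Set (Fin n)) with hA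
  set A' := Finset.univ.filter fun h : Fin n → Fin Q =>
      Set.InjOn h ((insert u T : Finset (Fin n)) : Set (Fin n)) with hA'
  set S := A.sigma fun h => Finset.univ \ T.image h with hS
  have h1 : A.card * (Q - T.card) ≤ S.card := by
    rw [hS, Finset.card_sigma]
    rw [← smul_eq_mul, ← Finset.sum_const]
    refine Finset.sum_le_sum fun h _ => ?_
    rw [Finset.card_sdiff_of_subset (Finset.subset_univ _), Finset.card_univ, Fintype.card_fin]
    have : (T.image h).card ≤ T.card := Finset.card_image_le
    omega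
  have h2 : S.card ≤ (A' ×ˢ (Finset.univ : Finset (Fin Q))).card := by
    refine Finset.card_le_card_of_injOn (fun x => (Function.update x.1 u x.2, x.1 u)) ?_ ?_
    · rintro ⟨h, y⟩ hx
      rw [Finset.mem_coe, hS, Finset.mem_sigma, hA, Finset.mem_filter, Finset.mem_sdiff] at hx
      obtain ⟨⟨-, h1⟩, -, h2⟩ := hx
      rw [Finset.mem_coe, Finset.mem_product, hA', Finset.mem_filter]
      refine ⟨⟨Finset.mem_univ _, ?_⟩, Finset.mem_univ _⟩
      rw [Finset.coe_insert, Set.injOn_insert (by simpa using hu)]
      have e1 : Set.EqOn (Function.update h u y) h (T : Set (Fin n)) := by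
        intro v hv
        have : v ≠ u := by rintro rfl; exact hu hv
        simp [this]
      refine ⟨(e1.injOn_iff).2 h1, ?_⟩
      simp only [Function.update_self]
      rintro ⟨v, hv, hv2⟩
      exact h2 (Finset.mem_image.2 ⟨v, hv, (e1 hv).symm.trans hv2⟩)
    · rintro ⟨h, y⟩ _ ⟨h', y'⟩ _ heq
      simp only [Prod.mk.injEq] at heq
      obtain ⟨e1, e2⟩ := heq
      have e3 : y = y' := by
        have := congrFun e1 u
        simpa using this
      have e4 : h = h' := by
        funext v
        by_cases hv : v = u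
        · rw [hv, e2]
        · have := congrFun e1 v
          simpa [hv] using this
      rw [e3, e4]
  rw [Finset.card_product, Finset.card_univ, Fintype.card_fin] at h2
  exact h1.trans h2

theorem inj_count {n Q : ℕ} (T : Finset (Fin n)) (hT : 2 * T.card ≤ Q) (hQ : 0 < Q) :
    Q ^ n ≤ 2 ^ T.card *
      (Finset.univ.filter fun h : Fin n → Fin Q => Set.InjOn h (T : Set (Fin n))).card := by
  classical
  induction T using Finset.induction_on with
  | empty => simp
  | insert u T hu ih =>
    rw [Finset.card_insert_of_notMem hu] at hT ⊢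
    have ih := ih (by omega)
    have h1 := inj_step (Q := Q) T u hu
    set A := (Finset.univ.filter fun h : Fin n → Fin Q => Set.InjOn h (T : Set (Fin n))).card
    set A' := (Finset.univ.filter fun h : Fin n → Fin Q =>
      Set.InjOn h ((insert u T : Finset (Fin n)) : Set (Fin n))).card
    have h2 : A * Q ≤ 2 * A' * Q := by
      have : Q ≤ 2 * (Q - T.card) := by omega
      calc A * Q ≤ A * (2 * (Q - T.card)) := Nat.mul_le_mul_left _ this
        _ = 2 * (A * (Q - T.card)) := by ring
        _ ≤ 2 * (A' * Q) := Nat.mul_le_mul_left _ h1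
        _ = 2 * A' * Q := by ring
    have h3 : A ≤ 2 * A' := Nat.le_of_mul_le_mul_right h2 hQ
    calc Q ^ n ≤ 2 ^ T.card * A := ih
      _ ≤ 2 ^ T.card * (2 * A') := Nat.mul_le_mul_left _ h3
      _ = 2 ^ (T.card + 1) * A' := by ring

/-! ### Bit strings -/

/-- the bit strings of length `l` -/
noncomputable def BL (l : ℕ) : Finset (List Bool) :=
  (Finset.univ : Finset (Fin l → Bool)).image List.ofFn

theorem mem_BL {l : ℕ} {r : List Bool} : r ∈ BL l ↔ r.length = l := by
  unfold BL
  rw [Finset.mem_image]
  constructor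
  · rintro ⟨f, -, rfl⟩; simp
  · rintro rfl
    exact ⟨fun i => r[i], Finset.mem_univ _, List.ofFn_getElem⟩

theorem card_BL (l : ℕ) : (BL l).card = 2 ^ l := by
  unfold BL
  rw [Finset.card_image_of_injective _ List.ofFn_injective]
  simp

theorem valB_inj : ∀ {l l' : List Bool}, l.length = l'.length → valB l = valB l' → l = l' := by
  intro l
  induction l with
  | nil => intro l' h _; rw [List.length_nil] at h; exact (List.length_eq_zero_iff.1 h.symm).symm
  | cons b l ih =>
    intro l' h1 h2
    cases l' with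
    | nil => simp at h1
    | cons b' l' =>
      rw [valB_cons, valB_cons] at h2
      have hb : b = b' ∧ valB l = valB l' := by
        cases b <;> cases b' <;> simp at h2 ⊢ <;> omega
      rw [hb.1, ih (by simpa using h1) hb.2]

theorem bk_lt (r : List Bool) (st len : ℕ) : bk r st len < 2 ^ len := by
  unfold bk
  refine lt_of_lt_of_le (valB_lt _) (Nat.pow_le_pow_right (by norm_num) ?_)
  rw [List.length_take]
  exact min_le_left _ _

/-- Blocks determine a bit string. -/
theorem ext_bk {r r' : List Bool} {m b : ℕ} (h1 : r.length = m * b) (h2 : r'.length = m * b)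
    (h : ∀ i < m, bk r (i * b) b = bk r' (i * b) b) : r = r' := by
  apply List.ext_getElem (by omega)
  intro x hx hx'
  have hb : 0 < b := by
    rcases Nat.eq_zero_or_pos b with rfl | hb
    · simp at h1; rw [h1] at hx; simp at hx
    · exact hb
  have hi : x / b < m := by
    rw [Nat.div_lt_iff_lt_mul hb]; omega
  have h3 := h _ hi
  unfold bk at h3
  have e1 : x / b * b + b ≤ m * b := by
    rw [← Nat.succ_mul]; exact Nat.mul_le_mul_right _ hi
  have h4 := valB_inj (by simp [h1, h2]) h3
  have h5 := congrArg (fun l : List Bool => l[x % b]?) h4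
  have e2 := Nat.mod_lt x hb
  have e3 : x / b * b + x % b = x := by rw [mul_comm]; exact Nat.div_add_mod x b
  simp only [List.getElem?_take, e2, if_true, List.getElem?_drop, e3] at h5
  rw [List.getElem?_eq_getElem hx, List.getElem?_eq_getElem hx'] at h5
  exact Option.some.inj h5

theorem take_drop_bk {r : List Bool} {a c st len : ℕ} (h : st + len ≤ c) :
    bk ((r.drop a).take c) st len = bk r (a + st) len := by
  unfold bk
  congr 1
  rw [List.drop_take, List.drop_drop, List.take_take, min_eq_left (by omega)]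

/-- the hash function given by a bit string -/
def hf (n q : ℕ) (r : List Bool) : List ℕ := (List.range n).map fun u => bk r (u * q) q

theorem hashes_eq (r : List Bool) (N n q : ℕ) :
    hashes r N n q = (List.range N).map fun j => hf n q ((r.drop (j * (n * q))).take (n * q)) := by
  unfold hashes hf
  refine List.map_congr_left fun j _ => List.map_congr_left fun u hu => ?_
  rw [List.mem_range] at hu
  rw [take_drop_bk, add_mul, mul_assoc]
  calc u * q + q = (u + 1) * q := by ring
    _ ≤ n * q := Nat.mul_le_mul_right _ hu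

/-- binary digits -/
def digs : ℕ → ℕ → List Bool
  | 0, _ => []
  | q + 1, y => decide (y % 2 = 1) :: digs q (y / 2)

theorem digs_length : ∀ q y, (digs q y).length = q := by
  intro q
  induction q with
  | zero => intro y; rfl
  | succ q ih => intro y; rw [digs, List.length_cons, ih]

theorem valB_digs : ∀ q y, y < 2 ^ q → valB (digs q y) = y := by
  intro q
  induction q with
  | zero => intro y hy; simp at hy; simp [digs, hy]
  | succ q ih =>
    intro y hy
    rw [digs, valB_cons, ih _ (by rw [pow_succ] at hy; omega)]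
    by_cases h : y % 2 = 1
    · simp only [h, decide_true, if_true]; omega
    · simp only [h, decide_false, Bool.false_eq_true, if_false]; omega

/-- the bit string of a function -/
def enc (q : ℕ) : List ℕ → List Bool
  | [] => []
  | y :: l => digs q y ++ enc q l

theorem enc_length (q : ℕ) (l : List ℕ) : (enc q l).length = l.length * q := by
  induction l with
  | nil => simp [enc]
  | cons y l ih => rw [enc, List.length_append, digs_length, ih, List.length_cons, Nat.succ_mul]; omega

theorem bk_enc (q : ℕ) : ∀ (l : List ℕ), (∀ y ∈ l, y < 2 ^ q) → ∀ u < l.length,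
    bk (enc q l) (u * q) q = l.getD u 0 := by
  intro l
  induction l with
  | nil => intro _ u hu; simp at hu
  | cons y l ih =>
    intro h u hu
    cases u with
    | zero =>
      unfold bk
      rw [zero_mul, List.drop_zero, enc, List.take_left' (digs_length q y),
        valB_digs _ _ (h y (by simp))]
      rfl
    | succ u =>
      have := ih (fun y hy => h y (List.mem_cons_of_mem _ hy)) u (by simpa using hu)
      rw [List.getD_cons_succ, ← this]
      unfold bk
      congr 2
      rw [enc, show (u + 1) * q = q + u * q by ring, ← List.drop_drop,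
        List.drop_left' (digs_length q y)]

theorem good_count {n q : ℕ} (T : Finset (Fin n)) (hT : 2 * T.card ≤ 2 ^ q) :
    2 ^ (n * q) ≤ 2 ^ T.card * ((BL (n * q)).filter fun r =>
      ∀ u ∈ T, ∀ v ∈ T, u ≠ v → (hf n q r).getD u 0 ≠ (hf n q r).getD v 0).card := by
  classical
  have h1 := inj_count (Q := 2 ^ q) T hT (by positivity)
  rw [← pow_mul, mul_comm q n] at h1
  refine h1.trans (Nat.mul_le_mul_left _ ?_)
  have key : ∀ (h : Fin n → Fin (2 ^ q)) (u : Fin n),
      (hf n q (enc q (List.ofFn fun i => (h i : ℕ)))).getD u 0 = h u := by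
    intro h u
    unfold hf
    have hu := u.2
    rw [List.getD_eq_getElem _ _ (by simp), List.getElem_map, List.getElem_range, bk_enc]
    · rw [List.getD_eq_getElem _ _ (by simp), List.getElem_ofFn]
    · intro y hy
      rw [List.mem_ofFn] at hy
      obtain ⟨i, rfl⟩ := hy
      exact (h i).2
    · simp
  refine Finset.card_le_card_of_injOn (fun h => enc q (List.ofFn fun i => (h i : ℕ))) ?_ ?_
  · intro h hh
    rw [Finset.mem_coe, Finset.mem_filter] at hh
    rw [Finset.mem_coe, Finset.mem_filter, mem_BL, enc_length, List.length_ofFn]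
    refine ⟨rfl, ?_⟩
    intro u hu v hv huv
    rw [key, key]
    intro he
    exact huv (hh.2 hu hv (Fin.ext he))
  · intro h _ h' _ he
    funext u
    have h2 := key h u
    have h3 := key h' u
    simp only at he
    rw [he, h3] at h2
    exact (Fin.ext h2).symm

theorem two_pow_bound {a : ℕ} (ha : 1 ≤ a) : 2 * (a - 1) ^ a ≤ a ^ a := by
  obtain ⟨c, rfl⟩ : ∃ c, a = c + 1 := ⟨a - 1, by omega⟩
  rw [Nat.add_sub_cancel]
  rcases Nat.eq_zero_or_pos c with rfl | hc
  · simp
  · have h1 : (1 : ℚ) + (c + 1 : ℕ) * (1 / c) ≤ (1 + 1 / c) ^ (c + 1) :=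
      one_add_mul_le_pow (by
        have : (0 : ℚ) ≤ 1 / c := by positivity
        linarith) _
    have hc' : (0 : ℚ) < c := by exact_mod_cast hc
    have h2 : (2 : ℚ) ≤ (1 + 1 / c) ^ (c + 1) := by
      refine le_trans ?_ h1
      push_cast
      have : ((c : ℚ) + 1) * (1 / c) = 1 + 1 / c := by field_simp
      rw [this]
      have : (0 : ℚ) ≤ 1 / c := by positivity
      linarith
    have h3 : (2 : ℚ) * c ^ (c + 1) ≤ (c + 1) ^ (c + 1) := by
      have e1 : ((c : ℚ) + 1) ^ (c + 1) = (1 + 1 / c) ^ (c + 1) * c ^ (c + 1) := by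
        rw [← mul_pow]
        congr 1
        field_simp
      rw [e1]
      exact mul_le_mul_of_nonneg_right h2 (by positivity)
    exact_mod_cast h3

theorem two_pow_bound' {a J N : ℕ} (ha : 1 ≤ a) (hN : a * J ≤ N) :
    2 ^ J * (a - 1) ^ N ≤ a ^ N := by
  obtain ⟨d, rfl⟩ := Nat.exists_eq_add_of_le hN
  have h1 := Nat.pow_le_pow_left (two_pow_bound ha) J
  rw [mul_pow, ← pow_mul, ← pow_mul] at h1
  rw [pow_add, pow_add, ← mul_assoc]
  exact Nat.mul_le_mul h1 (Nat.pow_le_pow_left (by omega) _)

/-- the bit strings all of whose `N` blocks are bad -/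
theorem blocks_count {N w : ℕ} (Bad : Finset (List Bool)) :
    ((BL (N * w)).filter fun r => ∀ j < N, (r.drop (j * w)).take w ∈ Bad).card ≤
      Bad.card ^ N := by
  classical
  have h1 : (Fintype.piFinset fun _ : Fin N => Bad).card = Bad.card ^ N := by
    rw [Fintype.card_piFinset_const]
  rw [← h1]
  refine Finset.card_le_card_of_injOn (fun r (j : Fin N) => (r.drop (j * w)).take w) ?_ ?_
  · intro r hr
    rw [Finset.mem_coe, Finset.mem_filter] at hr
    rw [Finset.mem_coe, Fintype.mem_piFinset]
    intro j
    exact hr.2 j j.2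
  · intro r hr r' hr' he
    rw [Finset.mem_coe, Finset.mem_filter, mem_BL] at hr hr'
    refine ext_bk hr.1 hr'.1 fun i hi => ?_
    have := congrFun he ⟨i, hi⟩
    unfold bk
    simp only at this
    rw [this]

open Classical in
/-- Few bit strings give a family of hash functions which is not perfect. -/
theorem perfect_count {n L q N J : ℕ} (hn : 1 ≤ n) (hq : 4 * L ≤ 2 ^ q) (hN : 4 ^ L * J ≤ N)
    (hN0 : 0 < N) (hJ : 2 * n * n ^ (2 * L) ≤ 2 ^ J) :
    2 * n * ((BL (N * (n * q))).filter fun r => ¬ Perfect (hashes r N n q) n L).card ≤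
      2 ^ (N * (n * q)) := by
  classical
  set w := n * q with hw
  -- the bad strings for a tuple of vertices
  let Bad : (Fin (2 * L) → Fin n) → Finset (List Bool) := fun g =>
    (BL w).filter fun r => ∃ i j, g i ≠ g j ∧ (hf n q r).getD (g i) 0 = (hf n q r).getD (g j) 0
  have hBad : ∀ g, 4 ^ L * (Bad g).card ≤ (4 ^ L - 1) * 2 ^ w := by
    intro g
    have h1 := good_count (q := q) (Finset.univ.image g) (by
      have : (Finset.univ.image g).card ≤ 2 * L := by
        refine Finset.card_image_le.trans (by simp)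
      omega)
    have h2 : (BL w).filter (fun r => ∀ u ∈ Finset.univ.image g, ∀ v ∈ Finset.univ.image g, u ≠ v →
        (hf n q r).getD u 0 ≠ (hf n q r).getD v 0) = BL w \ Bad g := by
      ext r
      simp only [Bad, Finset.mem_sdiff, Finset.mem_filter, Finset.mem_image, Finset.mem_univ,
        true_and, forall_exists_index, forall_apply_eq_imp_iff]
      constructor
      · rintro ⟨h3, h4⟩
        refine ⟨h3, ?_⟩
        rintro ⟨-, i, j, h5, h6⟩
        exact h4 i j h5 h6
      · rintro ⟨h3, h4⟩
        refine ⟨h3, fun i j h5 h6 => h4 ⟨h3, i, j, h5, h6⟩⟩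
    rw [h2, Finset.card_sdiff_of_subset (Finset.filter_subset _ _), card_BL] at h1
    have h3 : 2 ^ (Finset.univ.image g).card ≤ 4 ^ L := by
      rw [show (4 : ℕ) = 2 ^ 2 by norm_num, ← pow_mul]
      refine Nat.pow_le_pow_right (by norm_num) (Finset.card_image_le.trans (by simp))
    have h4 : (Bad g).card ≤ 2 ^ w := by
      rw [← card_BL]
      exact Finset.card_le_card (Finset.filter_subset _ _)
    have h5 : 2 ^ w ≤ 4 ^ L * (2 ^ w - (Bad g).card) := h1.trans (Nat.mul_le_mul_right _ h3)
    have h6 : 1 ≤ 4 ^ L := Nat.one_le_pow _ _ (by norm_num)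
    rw [Nat.mul_sub] at h5
    rw [Nat.sub_mul, one_mul]
    have h7 : 4 ^ L * (Bad g).card ≤ 4 ^ L * 2 ^ w := Nat.mul_le_mul_left _ h4
    omega
  have hcover : ((BL (N * w)).filter fun r => ¬ Perfect (hashes r N n q) n L) ⊆
      Finset.univ.biUnion fun g : Fin (2 * L) → Fin n =>
        (BL (N * w)).filter fun r => ∀ j < N, (r.drop (j * w)).take w ∈ Bad g := by
    intro r hr
    rw [Finset.mem_filter] at hr
    obtain ⟨hr1, hr2⟩ := hr
    unfold Perfect at hr2
    push Not at hr2
    obtain ⟨e, he1, he2, he3, he4⟩ := hr2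
    have hr0 := mem_BL.1 hr1
    have hne : verts e ≠ [] := by
      intro h0
      have hh := he4 (hf n q ((r.drop (0 * (n * q))).take (n * q))) (by
        rw [hashes_eq]
        exact List.mem_map.2 ⟨0, by simpa using hN0, rfl⟩)
      unfold hv at hh
      rw [h0] at hh
      simp at hh
    have hlen : (verts e).length ≤ 2 * L := by
      have : ∀ e : Ent, (verts e).length = 2 * e.length := by
        intro e
        induction e with
        | nil => rfl
        | cons p e ih => rw [verts_cons]; simp [ih]; ring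
      rw [this]; omega
    have hpos : 0 < (verts e).length := List.length_pos_iff.2 hne
    -- a tuple with all vertices
    let g : Fin (2 * L) → Fin n := fun i =>
      ⟨(verts e)[(i : ℕ) % (verts e).length]'(Nat.mod_lt _ hpos), he1 _ (List.getElem_mem _)⟩
    rw [Finset.mem_biUnion]
    refine ⟨g, Finset.mem_univ _, ?_⟩
    rw [Finset.mem_filter]
    refine ⟨hr1, fun j hj => ?_⟩
    rw [Finset.mem_filter]
    have hjw : j * w + w ≤ N * w := by
      rw [← Nat.succ_mul]; exact Nat.mul_le_mul_right _ hj
    refine ⟨?_, ?_⟩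
    · rw [mem_BL, List.length_take, List.length_drop, hr0]
      omega
    · have hh := he4 (hf n q ((r.drop (j * (n * q))).take (n * q))) (by
        rw [hashes_eq]
        exact List.mem_map.2 ⟨j, by simpa using hj, rfl⟩)
      unfold hv at hh
      rw [List.Nodup, List.pairwise_iff_getElem] at hh
      push Not at hh
      obtain ⟨i, k, hi, hk, hik, hik2⟩ := hh
      rw [List.length_map] at hi hk
      refine ⟨⟨i, by omega⟩, ⟨k, by omega⟩, ?_, ?_⟩
      · simp only [g, ne_eq, Fin.mk.injEq]
        rw [← hw] at *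
        simp only [Nat.mod_eq_of_lt hi, Nat.mod_eq_of_lt hk]
        intro h0
        have := (List.Nodup.getElem_inj_iff he3).1 h0
        omega
      · simp only [g]
        simp only [Nat.mod_eq_of_lt hi, Nat.mod_eq_of_lt hk]
        rw [List.getElem_map, List.getElem_map] at hik2
        exact hik2
  have h1 : ((BL (N * w)).filter fun r => ¬ Perfect (hashes r N n q) n L).card ≤
      ∑ g : Fin (2 * L) → Fin n, (Bad g).card ^ N :=
    (Finset.card_le_card hcover).trans (Finset.card_biUnion_le.trans
      (Finset.sum_le_sum fun g _ => blocks_count (Bad g)))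
  have h2 : (4 ^ L) ^ N * ∑ g : Fin (2 * L) → Fin n, (Bad g).card ^ N ≤
      n ^ (2 * L) * ((4 ^ L - 1) ^ N * (2 ^ w) ^ N) := by
    rw [Finset.mul_sum]
    refine (Finset.sum_le_sum (g := fun _ => (4 ^ L - 1) ^ N * (2 ^ w) ^ N) fun g _ => ?_).trans ?_
    · rw [← mul_pow, ← mul_pow]
      exact Nat.pow_le_pow_left (hBad g) _
    · rw [Finset.sum_const, Finset.card_univ, smul_eq_mul]
      simp
  have h3 := two_pow_bound' (a := 4 ^ L) (J := J) (N := N) (Nat.one_le_pow _ _ (by norm_num)) hN
  have h4 : (0 : ℕ) < (4 ^ L) ^ N := by positivity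
  refine Nat.le_of_mul_le_mul_left ?_ h4
  set X := ((BL (N * w)).filter fun r => ¬ Perfect (hashes r N n q) n L).card
  calc (4 ^ L) ^ N * (2 * n * X) = 2 * n * ((4 ^ L) ^ N * X) := by ring
    _ ≤ 2 * n * ((4 ^ L) ^ N * ∑ g : Fin (2 * L) → Fin n, (Bad g).card ^ N) :=
        Nat.mul_le_mul_left _ (Nat.mul_le_mul_left _ h1)
    _ ≤ 2 * n * (n ^ (2 * L) * ((4 ^ L - 1) ^ N * (2 ^ w) ^ N)) := Nat.mul_le_mul_left _ h2
    _ = (2 * n * n ^ (2 * L)) * (4 ^ L - 1) ^ N * (2 ^ w) ^ N := by ring
    _ ≤ 2 ^ J * (4 ^ L - 1) ^ N * (2 ^ w) ^ N :=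
        Nat.mul_le_mul_right _ (Nat.mul_le_mul_right _ hJ)
    _ ≤ (4 ^ L) ^ N * (2 ^ w) ^ N := Nat.mul_le_mul_right _ h3
    _ = (4 ^ L) ^ N * 2 ^ (N * w) := by rw [← pow_mul 2 w N, mul_comm w N]

end Pool.Agent.V11223.NR
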