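import Pool.Agent.V11223.NR.Det

/-!
# The record of a run and the final partial colouring determine the random colours
-/

namespace Pool.Agent.V11223.NR

open Pool.Agent.NPC

theorem Ch.congr {M : List (List Bool)} {σ τ : List ℕ} {n a b : ℕ} {e : Ent}
    (h : Ch M σ n a b e) (he : ∀ u ∈ verts e, σ.getD u 0 = τ.getD u 0) : Ch M τ n a b e := by
  induction h with
  | base h1 h2 h3 h4 =>
    simp only [verts_cons, verts_nil, List.mem_cons, List.not_mem_nil, or_false, forall_eq_or_imp,
      forall_eq] at he
    exact Ch.base h1 h2 (by rw [← he.1, ← he.2, h3]) (by rw [← he.1]; exact h4)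
  | @step p e c d _ h1 h2 h3 h4 h5 h6 ih =>
    have e1 : σ.getD c 0 = τ.getD c 0 := he c (by simp)
    have e2 : σ.getD d 0 = τ.getD d 0 := he d (by simp)
    refine Ch.step (ih fun u hu => he u ?_) h1 h2 h3 h4 (by rw [← e1, ← e2, h5])
      (by rw [← e1]; exact h6)
    rw [verts_cons]
    exact List.mem_cons_of_mem _ (List.mem_cons_of_mem _ hu)

theorem Ev.congr {M : List (List Bool)} {σ τ : List ℕ} {n L : ℕ} {e : Ent}
    (h : Ev M σ n L e) (he : ∀ u ∈ verts e, σ.getD u 0 = τ.getD u 0) : Ev M τ n L e := by
  obtain ⟨a, b, h1, h2, h3, h4⟩ := h
  exact ⟨a, b, h1.congr he, h2, h3, h4⟩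

theorem Ch.col {M : List (List Bool)} {σ : List ℕ} {n a b : ℕ} {e : Ent}
    (h : Ch M σ n a b e) : ∀ p ∈ e, σ.getD p.1 0 = σ.getD p.2 0 ∧ σ.getD p.1 0 ≠ 0 := by
  induction h with
  | base _ _ h1 h2 => intro p hp; simp at hp; subst hp; exact ⟨h1, h2⟩
  | step _ _ _ _ _ h1 h2 ih =>
    intro p hp
    rcases List.mem_cons.1 hp with rfl | hp
    · exact ⟨h1, h2⟩
    · exact ih p hp

theorem mem_verts {e : Ent} {u : ℕ} : u ∈ verts e ↔ ∃ p ∈ e, u = p.1 ∨ u = p.2 := by
  simp [verts]

theorem Ch.verts_ne {M : List (List Bool)} {σ : List ℕ} {n a b : ℕ} {e : Ent}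
    (h : Ch M σ n a b e) : ∀ u ∈ verts e, σ.getD u 0 ≠ 0 := by
  intro u hu
  obtain ⟨p, hp, rfl | rfl⟩ := mem_verts.1 hu
  · exact (h.col p hp).2
  · rw [← (h.col p hp).1]; exact (h.col p hp).2

section getD
variable {n : ℕ}

theorem getD_map_range (f : ℕ → ℕ) {i : ℕ} (hi : i < n) :
    ((List.range n).map f).getD i 0 = f i := by
  rw [List.getD_eq_getElem?_getD, List.getElem?_map, List.getElem?_range hi]
  rfl

theorem setc_getD (σ : List ℕ) (v x : ℕ) {i : ℕ} (hi : i < n) :
    (setc (List.range n) σ v x).getD i 0 = if i = v then x else σ.getD i 0 := by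
  unfold setc
  rw [getD_map_range _ hi]
  by_cases h : i = v <;> simp [h]

theorem uncol_getD (σ S : List ℕ) {i : ℕ} (hi : i < n) :
    (uncol (List.range n) σ S).getD i 0 = if i ∈ S then 0 else σ.getD i 0 := by
  unfold uncol
  rw [getD_map_range _ hi]
  by_cases h : i ∈ S <;> simp [h]

theorem ext_getD {σ τ : List ℕ} (h1 : σ.length = n) (h2 : τ.length = n)
    (h : ∀ i < n, σ.getD i 0 = τ.getD i 0) : σ = τ := by
  apply List.ext_getElem (by omega)
  intro i hi hi'
  have := h i (by omega)
  rwa [List.getD_eq_getElem _ _ hi, List.getD_eq_getElem _ _ hi'] at this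

theorem free_some {σ : List ℕ} {v : ℕ} (h : free (List.range n) σ = some v) :
    v < n ∧ σ.getD v 0 = 0 := by
  unfold free at h
  have := List.mem_of_mem_head? h
  simpa using this

end getD

/-- the state after reading the colours, the last one first -/
def run (det : List ℕ → Option Ent) (n : ℕ) (xs : List ℕ) : List ℕ :=
  xs.foldr (step det (List.range n)) ((List.range n).map fun _ => 0)

/-- the record of a run -/
def recd (det : List ℕ → Option Ent) (n : ℕ) : List ℕ → List (Option Ent)
  | [] => []
  | x :: xs => (match free (List.range n) (run det n xs) with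
      | none => none
      | some v => det (setc (List.range n) (run det n xs) v (x + 1))) :: recd det n xs

/-- the first vertex not in `U` -/
def nxt (n : ℕ) (U : Finset ℕ) : ℕ := (((List.range n).filter fun i => decide (i ∉ U)).head?).getD 0

/-- the set of coloured vertices -/
def supp (n : ℕ) : List (Option Ent) → Finset ℕ
  | [] => ∅
  | none :: R => insert (nxt n (supp n R)) (supp n R)
  | some e :: R => insert (nxt n (supp n R)) (supp n R) \ (side (nxt n (supp n R)) e).toFinset

/-- number of erased colours -/
def era : List (Option Ent) → ℕ
  | [] => 0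
  | none :: R => era R
  | some e :: R => e.length + era R

/-- The detection is correct. -/
structure Setup (M : List (List Bool)) (n L : ℕ) (det : List ℕ → Option Ent) : Prop where
  sound : ∀ σ e, det σ = some e → Ev M σ n L e
  complete : ∀ σ, det σ = none → ∀ e, ¬ Ev M σ n L e

section

variable {M : List (List Bool)} {n L : ℕ} {det : List ℕ → Option Ent}

theorem run_length (xs : List ℕ) : (run det n xs).length = n := by
  induction xs with
  | nil => simp [run]
  | cons x xs ih =>
    unfold run at ih ⊢
    rw [List.foldr_cons]
    unfold step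
    split
    · exact ih
    · unfold stepAt
      split <;> simp [setc, uncol]

theorem run_cons (x : ℕ) (xs : List ℕ) :
    run det n (x :: xs) = step det (List.range n) x (run det n xs) := rfl

/-- the partial colouring is not yet complete -/
def Alive (det : List ℕ → Option Ent) (n : ℕ) (xs : List ℕ) : Prop :=
  free (List.range n) (run det n xs) ≠ none

theorem Alive.tail {x : ℕ} {xs : List ℕ} (h : Alive det n (x :: xs)) : Alive det n xs := by
  intro h1
  apply h
  rw [run_cons]
  unfold step
  rw [h1]
  exact h1

theorem side_mem {v u : ℕ} {e : Ent} (h : u ∈ side v e) : u ∈ verts e := by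
  unfold side at h
  rw [mem_verts]
  by_cases hv : v ∈ e.map Prod.fst
  · simp only [hv, decide_true, cond_true] at h
    obtain ⟨p, hp, rfl⟩ := List.mem_map.1 h
    exact ⟨p, hp, Or.inl rfl⟩
  · simp only [hv, decide_false, cond_false] at h
    obtain ⟨p, hp, rfl⟩ := List.mem_map.1 h
    exact ⟨p, hp, Or.inr rfl⟩

theorem verts_perm (e : Ent) : (verts e).Perm (e.map Prod.fst ++ e.map Prod.snd) := by
  induction e with
  | nil => simp
  | cons p e ih =>
    rw [verts_cons, List.map_cons, List.map_cons, List.cons_append]
    refine List.Perm.cons _ ?_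
    exact (ih.cons _).trans List.perm_middle.symm

/-- the other half -/
theorem side_partner {v u : ℕ} {e : Ent} (hnd : (verts e).Nodup) (h : u ∈ side v e) :
    ∃ w, w ∉ side v e ∧ w ∈ verts e ∧ ((u, w) ∈ e ∨ (w, u) ∈ e) := by
  have h1 := (verts_perm e).nodup_iff.1 hnd
  rw [List.nodup_append] at h1
  obtain ⟨-, -, h1⟩ := h1
  unfold side at h ⊢
  by_cases hv : v ∈ e.map Prod.fst
  · simp only [hv, decide_true, cond_true] at h ⊢
    obtain ⟨p, hp, rfl⟩ := List.mem_map.1 h
    refine ⟨p.2, ?_, ?_, Or.inl hp⟩
    · intro h2
      exact h1 _ h2 _ (List.mem_map_of_mem hp) rfl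
    · rw [mem_verts]; exact ⟨p, hp, Or.inr rfl⟩
  · simp only [hv, decide_false, cond_false] at h ⊢
    obtain ⟨p, hp, rfl⟩ := List.mem_map.1 h
    refine ⟨p.1, ?_, ?_, Or.inr hp⟩
    · intro h2
      exact h1 _ (List.mem_map_of_mem hp) _ h2 rfl
    · rw [mem_verts]; exact ⟨p, hp, Or.inl rfl⟩

theorem self_mem_side {v : ℕ} {e : Ent} (h : v ∈ verts e) : v ∈ side v e := by
  unfold side
  by_cases hv : v ∈ e.map Prod.fst
  · simp only [hv, decide_true, cond_true]
  · simp only [hv, decide_false, cond_false]
    obtain ⟨p, hp, rfl | rfl⟩ := mem_verts.1 h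
    · exact absurd (List.mem_map_of_mem hp) hv
    · exact List.mem_map_of_mem hp

theorem side_nodup {v : ℕ} {e : Ent} (hnd : (verts e).Nodup) : (side v e).Nodup := by
  have h1 := (verts_perm e).nodup_iff.1 hnd
  rw [List.nodup_append] at h1
  unfold side
  by_cases hv : v ∈ e.map Prod.fst
  · simp only [hv, decide_true, cond_true]; exact h1.1
  · simp only [hv, decide_false, cond_false]; exact h1.2.1

theorem side_length (v : ℕ) (e : Ent) : (side v e).length = e.length := by
  unfold side
  by_cases hv : v ∈ e.map Prod.fst
  · simp only [hv, decide_true, cond_true, List.length_map]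
  · simp only [hv, decide_false, cond_false, List.length_map]

/-- The partial colourings which occur have no event, and the events found contain the vertex
just coloured. -/
theorem event_free (S : Setup M n L det) (xs : List ℕ) : ∀ e, ¬ Ev M (run det n xs) n L e := by
  induction xs with
  | nil =>
    rintro e ⟨a, b, h, -⟩
    obtain ⟨ha, -⟩ := h.ab_lt
    cases h with
    | base h1 h2 h3 h4 =>
      apply h4
      unfold run
      rw [List.foldr_nil, getD_map_range _ h1]
    | step _ h1 h2 _ _ _ h4 =>
      apply h4
      unfold run
      rw [List.foldr_nil, getD_map_range _ h1]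
  | cons x xs ih =>
    rw [run_cons]
    unfold step
    split
    · exact ih
    · rename_i v hv
      unfold stepAt
      split
      · rename_i h
        exact S.complete _ h
      · rename_i e h
        intro e' he'
        apply ih e'
        have hev := S.sound _ _ h
        have hve : v ∈ verts e := by
          by_contra hc
          apply ih e
          refine hev.congr fun u hu => ?_
          obtain ⟨a, b, h1, -⟩ := hev
          rw [setc_getD _ _ _ (h1.verts_lt u hu), if_neg]
          rintro rfl
          exact hc hu
        refine he'.congr fun u hu => ?_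
        obtain ⟨a, b, h1, -⟩ := he'
        have hu1 := h1.verts_lt u hu
        have hu2 := h1.verts_ne u hu
        rw [uncol_getD _ _ hu1] at hu2 ⊢
        by_cases hs : u ∈ side v e
        · rw [if_pos hs] at hu2; exact absurd rfl hu2
        · rw [if_neg hs, setc_getD _ _ _ hu1, if_neg]
          rintro rfl
          exact hs (self_mem_side hve)

theorem found (S : Setup M n L det) {xs : List ℕ} {x v : ℕ} {e : Ent}
    (h : det (setc (List.range n) (run det n xs) v (x + 1)) = some e) : v ∈ verts e := by
  have hev := S.sound _ _ h
  by_contra hc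
  apply event_free S xs e
  refine hev.congr fun u hu => ?_
  obtain ⟨a, b, h1, -⟩ := hev
  rw [setc_getD _ _ _ (h1.verts_lt u hu), if_neg]
  rintro rfl
  exact hc hu

/-- the coloured vertices -/
def col (n : ℕ) (σ : List ℕ) : Finset ℕ := (Finset.range n).filter fun i => σ.getD i 0 ≠ 0

theorem free_eq_nxt {σ : List ℕ} {v : ℕ} (h : free (List.range n) σ = some v) :
    nxt n (col n σ) = v := by
  unfold nxt
  have : ((List.range n).filter fun i => decide (i ∉ col n σ)) =
      (List.range n).filter fun i => decide (σ.getD i 0 = 0) := by
    refine List.filter_congr fun i hi => ?_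
    rw [List.mem_range] at hi
    rw [decide_eq_decide]
    unfold col
    rw [Finset.mem_filter, Finset.mem_range]
    tauto
  rw [this]
  unfold free at h
  rw [h]
  rfl

theorem col_setc {σ : List ℕ} {v x : ℕ} (hv : v < n) :
    col n (setc (List.range n) σ v (x + 1)) = insert v (col n σ) := by
  ext i
  unfold col
  rw [Finset.mem_insert, Finset.mem_filter, Finset.mem_filter, Finset.mem_range]
  by_cases hi : i < n
  · rw [setc_getD _ _ _ hi]
    by_cases h : i = v
    · simp [h, hv]
    · simp [h]
  · have : i ≠ v := by rintro rfl; exact hi hv
    simp [hi, this]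

theorem col_uncol {σ S : List ℕ} : col n (uncol (List.range n) σ S) = col n σ \ S.toFinset := by
  ext i
  unfold col
  rw [Finset.mem_sdiff, Finset.mem_filter, Finset.mem_filter, Finset.mem_range, List.mem_toFinset]
  by_cases hi : i < n
  · rw [uncol_getD _ _ hi]
    by_cases h : i ∈ S
    · simp [h]
    · simp [h]
  · simp [hi]

theorem supp_recd (_S : Setup M n L det) {xs : List ℕ} (h : Alive det n xs) :
    supp n (recd det n xs) = col n (run det n xs) := by
  induction xs with
  | nil =>
    unfold recd supp col run
    rw [eq_comm, Finset.filter_eq_empty_iff]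
    intro i hi
    rw [Finset.mem_range] at hi
    rw [List.foldr_nil, getD_map_range _ hi]
    simp
  | cons x xs ih =>
    have hA := h.tail
    have ih := ih hA
    obtain ⟨v, hv⟩ := Option.ne_none_iff_exists'.1 hA
    have hv1 := free_eq_nxt hv
    have hv2 := (free_some hv).1
    unfold recd
    rw [hv, run_cons]
    unfold step
    rw [hv]
    simp only
    unfold stepAt
    split
    · rename_i h1
      rw [h1]
      unfold supp
      rw [ih, hv1, col_setc hv2]
    · rename_i e h1
      rw [h1]
      unfold supp
      rw [ih, hv1, col_uncol, col_setc hv2]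

theorem card_recd (S : Setup M n L det) {xs : List ℕ} (h : Alive det n xs) :
    (supp n (recd det n xs)).card + era (recd det n xs) = xs.length := by
  induction xs with
  | nil => simp [recd, supp, era]
  | cons x xs ih =>
    have hA := h.tail
    have ih := ih hA
    obtain ⟨v, hv⟩ := Option.ne_none_iff_exists'.1 hA
    have hv1 := free_eq_nxt hv
    obtain ⟨hv2, hv3⟩ := free_some hv
    have hs := supp_recd S hA
    unfold recd
    rw [hv]
    simp only
    have hnot : v ∉ col n (run det n xs) := by
      unfold col
      rw [Finset.mem_filter]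
      tauto
    cases h1 : det (setc (List.range n) (run det n xs) v (x + 1)) with
    | none =>
      unfold supp era
      rw [hs, hv1, Finset.card_insert_of_notMem hnot, List.length_cons, ← ih, hs]
      omega
    | some e =>
      unfold supp era
      obtain ⟨a, b, h2, h3, -⟩ := S.sound _ _ h1
      have hsub : (side v e).toFinset ⊆ insert v (col n (run det n xs)) := by
        intro u hu
        rw [List.mem_toFinset] at hu
        have hu := side_mem hu
        rw [← col_setc (x := x) hv2]
        unfold col
        rw [Finset.mem_filter, Finset.mem_range]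
        exact ⟨h2.verts_lt u hu, h2.verts_ne u hu⟩
      have hc : (side v e).toFinset.card = e.length := by
        rw [List.toFinset_card_of_nodup (side_nodup h3), side_length]
      rw [hs, hv1, Finset.card_sdiff_of_subset hsub, Finset.card_insert_of_notMem hnot, hc,
        List.length_cons, ← ih, hs]
      have := Finset.card_le_card hsub
      rw [Finset.card_insert_of_notMem hnot, hc] at this
      omega

/-- The record and the final state determine the colours. -/
theorem recd_inj (S : Setup M n L det) : ∀ {xs ys : List ℕ}, Alive det n xs → Alive det n ys →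
    recd det n xs = recd det n ys → run det n xs = run det n ys → xs = ys := by
  intro xs
  induction xs with
  | nil =>
    intro ys _ _ h1 _
    cases ys with
    | nil => rfl
    | cons y ys => simp [recd] at h1
  | cons x xs ih =>
    intro ys hx hy h1 h2
    cases ys with
    | nil => simp [recd] at h1
    | cons y ys =>
      have hA := hx.tail
      have hB := hy.tail
      obtain ⟨v, hv⟩ := Option.ne_none_iff_exists'.1 hA
      obtain ⟨w, hw⟩ := Option.ne_none_iff_exists'.1 hB
      unfold recd at h1
      rw [List.cons.injEq, hv, hw] at h1
      simp only at h1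
      obtain ⟨h1, h3⟩ := h1
      have hvw : v = w := by
        rw [← free_eq_nxt hv, ← free_eq_nxt hw, ← supp_recd S hA, ← supp_recd S hB, h3]
      subst hvw
      rw [run_cons, run_cons] at h2
      unfold step at h2
      rw [hv, hw] at h2
      simp only at h2
      unfold stepAt at h2
      obtain ⟨hv2, hv3⟩ := free_some hv
      obtain ⟨-, hw3⟩ := free_some hw
      -- the states after colouring `v` agree
      have key : ∀ i < n, (setc (List.range n) (run det n xs) v (x + 1)).getD i 0 =
          (setc (List.range n) (run det n ys) v (y + 1)).getD i 0 := by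
        cases h4 : det (setc (List.range n) (run det n xs) v (x + 1)) with
        | none =>
          rw [← h1, h4] at h2
          simp only at h2
          intro i _
          rw [h2]
        | some e =>
          rw [← h1, h4] at h2
          simp only at h2
          have h5 : det (setc (List.range n) (run det n ys) v (y + 1)) = some e := by
            rw [← h1, h4]
          have hk : ∀ i < n, i ∉ side v e →
              (setc (List.range n) (run det n xs) v (x + 1)).getD i 0 =
              (setc (List.range n) (run det n ys) v (y + 1)).getD i 0 := by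
            intro i hi his
            have := congrArg (fun l : List ℕ => l.getD i 0) h2
            rw [uncol_getD _ _ hi, uncol_getD _ _ hi, if_neg his, if_neg his] at this
            exact this
          intro i hi
          by_cases his : i ∈ side v e
          · obtain ⟨a, b, g1, g2, -⟩ := S.sound _ _ h4
            obtain ⟨a', b', g1', -⟩ := S.sound _ _ h5
            obtain ⟨j, hj1, hj2, hj3⟩ := side_partner g2 his
            have hjn := g1.verts_lt j hj2
            have e1 := hk j hjn hj1
            rcases hj3 with hj3 | hj3
            · have e2 := (g1.col _ hj3).1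
              have e3 := (g1'.col _ hj3).1
              simp only at e2 e3
              rw [e2, e3, e1]
            · have e2 := (g1.col _ hj3).1
              have e3 := (g1'.col _ hj3).1
              simp only at e2 e3
              rw [← e2, ← e3, e1]
          · exact hk i hi his
      have hxy : x = y := by
        have := key v hv2
        rw [setc_getD _ _ _ hv2, setc_getD _ _ _ hv2, if_pos rfl, if_pos rfl] at this
        omega
      have hrun : run det n xs = run det n ys := by
        refine ext_getD (run_length _) (run_length _) fun i hi => ?_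
        by_cases hiv : i = v
        · rw [hiv, hv3, hw3]
        · have := key i hi
          rwa [setc_getD _ _ _ hi, setc_getD _ _ _ hi, if_neg hiv, if_neg hiv] at this
      rw [hxy, ih hA hB h3 hrun]

end

end Pool.Agent.V11223.NR
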