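import Pool.Agent.V11223.NR.Count
import Pool.Agent.V11223.NR.Hash

/-!
# The probability of failure
-/

namespace Pool.Agent.V11223.NR

open Pool.Agent.NPC

/-! ### The parameters -/

theorem two_pow_size_le {n : ℕ} (hn : 1 ≤ n) : 2 ^ n.size ≤ 2 * n := by
  have h1 : 0 < n.size := Nat.size_pos.2 hn
  have h2 : 2 ^ (n.size - 1) ≤ n := Nat.lt_size.1 (by omega)
  calc 2 ^ n.size = 2 * 2 ^ (n.size - 1) := by rw [← pow_succ']; congr 1; omega
    _ ≤ 2 * n := Nat.mul_le_mul_left _ h2

theorem size_le_self (n : ℕ) : n.size ≤ n := Nat.size_le.2 Nat.lt_two_pow_self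

theorem pow_pL_le {n : ℕ} (hn : 1 ≤ n) : 4 ^ pL n ≤ 16 * n ^ 2 := by
  unfold pL
  have h := two_pow_size_le hn
  calc 4 ^ (n.size + 1) = 4 * (2 ^ n.size) ^ 2 := by
        rw [pow_succ, show (4 : ℕ) = 2 ^ 2 by norm_num, ← pow_mul, ← pow_mul, mul_comm n.size 2]
        ring
    _ ≤ 4 * (2 * n) ^ 2 := Nat.mul_le_mul_left _ (Nat.pow_le_pow_left h 2)
    _ = 16 * n ^ 2 := by ring

theorem four_n_le {n : ℕ} : 4 * n ≤ 4 ^ pL n := by
  unfold pL
  have h : n < 2 ^ n.size := Nat.lt_size_self n
  have h2 : 2 ^ n.size ≤ 4 ^ n.size := Nat.pow_le_pow_left (by norm_num) _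
  rw [pow_succ]
  omega

theorem pq_ge (n : ℕ) : 4 * pL n ≤ 2 ^ pq n := (Nat.lt_size_self _).le

theorem pL_pos (n : ℕ) : 0 < pL n := Nat.succ_pos _

theorem pq_le (n : ℕ) : 2 ^ pq n ≤ 8 * pL n := by
  have := two_pow_size_le (n := 4 * pL n) (by have := pL_pos n; omega)
  unfold pq
  omega

theorem msks_full {n : ℕ} (hn : 1 ≤ n) (w : List Bool)
    (hw : w.length = (List.range (2 ^ pq n)).length) : w ∈ msks n (pq n) := by
  unfold msks
  refine (YD.tup_full _ [false, true] (by simp) _ ?_).2 w ?_ ?_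
  · rw [List.length_replicate, List.length_replicate]
    simp only [List.length_cons, List.length_nil, zero_add, Nat.reduceAdd]
    calc 2 ^ 2 ^ pq n ≤ 2 ^ (8 * pL n) := Nat.pow_le_pow_right (by norm_num) (pq_le n)
      _ = 256 * (2 ^ n.size) ^ 8 := by
          unfold pL
          rw [← pow_mul, mul_add, pow_add, mul_comm 8 n.size]
          norm_num
          ring
      _ ≤ 256 * (2 * n) ^ 8 :=
          Nat.mul_le_mul_left _ (Nat.pow_le_pow_left (two_pow_size_le hn) 8)
      _ = n ^ 8 * 65536 := by ring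
  · rw [hw]; simp
  · intro a _; cases a <;> simp

theorem hash_param {n : ℕ} :
    2 * n * n ^ (2 * pL n) ≤ 2 ^ (2 * n ^ 2 + 3 * n + 1) := by
  have h : n < 2 ^ n.size := Nat.lt_size_self n
  have hs := size_le_self n
  calc 2 * n * n ^ (2 * pL n) ≤ 2 * 2 ^ n.size * (2 ^ n.size) ^ (2 * pL n) :=
        Nat.mul_le_mul (Nat.mul_le_mul_left _ h.le) (Nat.pow_le_pow_left h.le _)
    _ = 2 ^ (2 * n.size ^ 2 + 3 * n.size + 1) := by
        unfold pL
        rw [← pow_mul, ← pow_succ', ← pow_add]
        congr 1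
        ring
    _ ≤ 2 ^ (2 * n ^ 2 + 3 * n + 1) := by
        refine Nat.pow_le_pow_right (by norm_num) ?_
        have := Nat.pow_le_pow_left hs 2
        omega

theorem pb_ge (D : ℕ) : 32 * D ^ 2 ≤ 2 ^ pb D := by
  unfold pb
  have h := Nat.lt_size_self (D ^ 2)
  rw [pow_add]
  omega

theorem pb_le {D : ℕ} (hD : 1 ≤ D) : 2 ^ pb D ≤ 64 * D ^ 2 := by
  unfold pb
  have h := two_pow_size_le (n := D ^ 2) (Nat.one_le_pow _ _ hD)
  rw [pow_add]
  omega

theorem col_param {n D : ℕ} (hDn : D ≤ n) :
    2 * n * ((2 ^ pb D + 1) ^ n * (16 * D ^ 2) ^ pm n) ≤ (2 ^ pb D) ^ pm n := by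
  have h1 : D ^ 2 < 2 ^ (2 * n) := by
    have : D < 2 ^ n := lt_of_le_of_lt hDn Nat.lt_two_pow_self
    calc D ^ 2 < (2 ^ n) ^ 2 := Nat.pow_lt_pow_left this (by norm_num)
      _ = 2 ^ (2 * n) := by rw [← pow_mul, mul_comm]
  have h2 : (D ^ 2).size ≤ 2 * n := Nat.size_le.2 h1
  have h3 : 2 ^ pb D + 1 ≤ 2 ^ (2 * n + 6) := by
    unfold pb
    calc 2 ^ ((D ^ 2).size + 5) + 1 ≤ 2 ^ ((D ^ 2).size + 5) + 2 ^ ((D ^ 2).size + 5) :=
          Nat.add_le_add_left (Nat.one_le_two_pow) _
      _ = 2 ^ ((D ^ 2).size + 6) := by ring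
      _ ≤ 2 ^ (2 * n + 6) := Nat.pow_le_pow_right (by norm_num) (by omega)
  have h4 : 2 * n * (2 ^ pb D + 1) ^ n ≤ 2 ^ pm n := by
    have e1 : (2 ^ pb D + 1) ^ n ≤ 2 ^ (n * (2 * n + 6)) := by
      calc (2 ^ pb D + 1) ^ n ≤ (2 ^ (2 * n + 6)) ^ n := Nat.pow_le_pow_left h3 _
        _ = 2 ^ (n * (2 * n + 6)) := by rw [← pow_mul, mul_comm]
    have e2 : 2 * n ≤ 2 ^ (n + 1) := by
      have : n < 2 ^ n := Nat.lt_two_pow_self
      rw [pow_succ]; omega
    calc 2 * n * (2 ^ pb D + 1) ^ n ≤ 2 ^ (n + 1) * 2 ^ (n * (2 * n + 6)) := Nat.mul_le_mul e2 e1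
      _ = 2 ^ pm n := by
          unfold pm
          rw [← pow_add]; congr 1; ring
  calc 2 * n * ((2 ^ pb D + 1) ^ n * (16 * D ^ 2) ^ pm n)
      = (2 * n * (2 ^ pb D + 1) ^ n) * (16 * D ^ 2) ^ pm n := by ring
    _ ≤ 2 ^ pm n * (16 * D ^ 2) ^ pm n := Nat.mul_le_mul_right _ h4
    _ = (32 * D ^ 2) ^ pm n := by rw [← mul_pow]; congr 1; ring
    _ ≤ (2 ^ pb D) ^ pm n := Nat.pow_le_pow_left (pb_ge D) _

/-! ### Correct detection -/

theorem hashes_take {r : List Bool} {N n q l : ℕ} (hl : N * (n * q) ≤ l) :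
    hashes (r.take l) N n q = hashes r N n q := by
  rw [hashes_eq, hashes_eq]
  refine List.map_congr_left fun j hj => ?_
  rw [List.mem_range] at hj
  have h1 : j * (n * q) + n * q ≤ N * (n * q) := by
    rw [← Nat.succ_mul]; exact Nat.mul_le_mul_right _ hj
  congr 1
  rw [List.drop_take, List.take_take, min_eq_left (by omega)]

theorem det_take {M : List (List Bool)} {r : List Bool} {l : ℕ}
    (hl : pN M.length * (M.length * pq M.length) ≤ l) : det M (r.take l) = det M r := by
  unfold det
  rw [hashes_take hl]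

theorem setup {M : List (List Bool)} {r : List Bool} (hn : 1 ≤ M.length)
    (hP : Perfect (hashes r (pN M.length) M.length (pq M.length)) M.length (pL M.length)) :
    Setup M M.length (pL M.length) (det M r) := by
  constructor
  · intro σ e h
    have := detect_sound h
    rwa [List.length_replicate] at this
  · intro σ h e
    have := detect_complete (M := M) (σ := σ) (n := M.length)
      (H := hashes r (pN M.length) M.length (pq M.length)) (ks := List.range (2 ^ pq M.length))
      (ms := msks M.length (pq M.length)) (Ls := List.replicate (pL M.length) ()) ?_ ?_ ?_ h e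
    · rwa [List.length_replicate] at this
    · intro g hg u hu
      unfold hashes at hg
      obtain ⟨j, -, rfl⟩ := List.mem_map.1 hg
      rw [getD_map_range _ hu, List.mem_range]
      exact bk_lt _ _ _
    · exact fun w hw => msks_full hn w hw
    · rwa [List.length_replicate]

/-- the colours read -/
theorem cols_length (r : List Bool) (st m b : ℕ) : (cols r st m b).length = m := by simp [cols]

theorem cols_lt (r : List Bool) (st m b : ℕ) : ∀ x ∈ cols r st m b, x < 2 ^ b := by
  intro x hx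
  unfold cols at hx
  obtain ⟨i, -, rfl⟩ := List.mem_map.1 hx
  exact bk_lt _ _ _

theorem cols_inj {r r' : List Bool} {st m b P : ℕ} (hr : r.length = P) (hr' : r'.length = P)
    (hP : st + m * b ≤ P) (h1 : r.take st = r'.take st) (h2 : cols r st m b = cols r' st m b)
    (h3 : r.drop (st + m * b) = r'.drop (st + m * b)) : r = r' := by
  have h4 : (r.drop st).take (m * b) = (r'.drop st).take (m * b) := by
    refine ext_bk (m := m) (b := b) ?_ ?_ fun i hi => ?_
    · rw [List.length_take, List.length_drop, hr]; omega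
    · rw [List.length_take, List.length_drop, hr']; omega
    · have e1 : i * b + b ≤ m * b := by
        rw [← Nat.succ_mul]; exact Nat.mul_le_mul_right _ hi
      rw [take_drop_bk e1, take_drop_bk e1]
      unfold cols at h2
      rw [List.map_inj_left] at h2
      exact h2 i (by simpa using hi)
  rw [← List.take_append_drop st r, ← List.take_append_drop st r', h1,
    ← List.take_append_drop (m * b) (r.drop st), ← List.take_append_drop (m * b) (r'.drop st), h4,
    List.drop_drop, List.drop_drop, h3]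

open Classical in
theorem bad1 {M : List (List Bool)} (hn : 1 ≤ M.length) {P : ℕ}
    (hP : pN M.length * (M.length * pq M.length) ≤ P) :
    2 * M.length * ((BL P).filter fun r =>
      ¬ Perfect (hashes r (pN M.length) M.length (pq M.length)) M.length (pL M.length)).card ≤
      2 ^ P := by
  set n := M.length
  set l := pN n * (n * pq n) with hl
  have h1 := perfect_count (n := n) (L := pL n) (q := pq n) (N := pN n)
    (J := 2 * n ^ 2 + 3 * n + 1) hn (pq_ge n) (by
      unfold pN
      exact Nat.mul_le_mul_right _ (pow_pL_le hn)) (by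
      unfold pN
      have : 0 < n ^ 2 := by positivity
      positivity) hash_param
  set A := (BL l).filter fun r => ¬ Perfect (hashes r (pN n) n (pq n)) n (pL n)
  have h2 : ((BL P).filter fun r => ¬ Perfect (hashes r (pN n) n (pq n)) n (pL n)).card ≤
      (A ×ˢ BL (P - l)).card := by
    refine Finset.card_le_card_of_injOn (fun r => (r.take l, r.drop l)) ?_ ?_
    · intro r hr
      rw [Finset.mem_coe, Finset.mem_filter, mem_BL] at hr
      rw [Finset.mem_coe, Finset.mem_product, Finset.mem_filter, mem_BL, mem_BL, hashes_take le_rfl]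
      refine ⟨⟨?_, hr.2⟩, ?_⟩
      · rw [List.length_take, hr.1]; omega
      · rw [List.length_drop, hr.1]
    · intro r _ r' _ he
      simp only [Prod.mk.injEq] at he
      rw [← List.take_append_drop l r, he.1, he.2, List.take_append_drop]
  rw [Finset.card_product, card_BL] at h2
  calc _ ≤ 2 * n * (A.card * 2 ^ (P - l)) := Nat.mul_le_mul_left _ h2
    _ = (2 * n * A.card) * 2 ^ (P - l) := by ring
    _ ≤ 2 ^ l * 2 ^ (P - l) := Nat.mul_le_mul_right _ h1
    _ = 2 ^ P := by rw [← pow_add]; congr 1; omega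

open Classical in
theorem bad2 {M : List (List Bool)} (hn : 1 ≤ M.length)
    (hsym : ∀ u w, adj M u w = adj M w u)
    (hD : ∀ u, ((List.range M.length).filter fun w => adj M u w).length ≤ dmax M)
    (hD1 : 1 ≤ dmax M) (hDn : dmax M ≤ M.length) {P : ℕ}
    (hP : pN M.length * M.length * pq M.length + pm M.length * pb (dmax M) ≤ P) :
    2 * M.length * ((BL P).filter fun r =>
      Perfect (hashes r (pN M.length) M.length (pq M.length)) M.length (pL M.length) ∧
      Alive (det M r) M.length (cols r (pN M.length * M.length * pq M.length) (pm M.length)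
        (pb (dmax M)))).card ≤ 2 ^ P := by
  set n := M.length
  set l := pN n * n * pq n with hl
  have hl' : pN n * (n * pq n) = l := by rw [hl]; ring
  set m := pm n
  set b := pb (dmax M)
  set A := (BL P).filter fun r => Perfect (hashes r (pN n) n (pq n)) n (pL n) ∧
      Alive (det M r) n (cols r l m b)
  have h2 : A.card ≤
      (BL l ×ˢ (recs M n (pL n) m ×ˢ (sts n (2 ^ b) ×ˢ BL (P - (l + m * b))))).card := by
    refine Finset.card_le_card_of_injOn (fun r => (r.take l, recd (det M r) n (cols r l m b),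
      run (det M r) n (cols r l m b), r.drop (l + m * b))) ?_ ?_
    · intro r hr
      rw [Finset.mem_coe, Finset.mem_filter, mem_BL] at hr
      obtain ⟨hr1, hr2, hr3⟩ := hr
      rw [Finset.mem_coe, Finset.mem_product, Finset.mem_product, Finset.mem_product, mem_BL,
        mem_BL]
      refine ⟨?_, ?_, ?_, ?_⟩
      · rw [List.length_take, hr1]; omega
      · have := recd_mem_recs hsym (setup hn hr2) hr3
        rwa [cols_length] at this
      · exact run_mem_sts (cols_lt _ _ _ _)
      · rw [List.length_drop, hr1]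
    · intro r hr r' hr' he
      rw [Finset.mem_coe, Finset.mem_filter, mem_BL] at hr hr'
      obtain ⟨hr1, hr2, hr3⟩ := hr
      obtain ⟨hr1', hr2', hr3'⟩ := hr'
      simp only [Prod.mk.injEq] at he
      obtain ⟨e1, e2, e3, e4⟩ := he
      have hdet : det M r = det M r' := by
        rw [← det_take (M := M) (r := r) (l := l) (le_of_eq hl'), e1, det_take (le_of_eq hl')]
      rw [← hdet] at e2 e3 hr3'
      have := recd_inj (setup hn hr2) hr3 hr3' e2 e3
      exact cols_inj hr1 hr1' hP e1 this e4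
  rw [Finset.card_product, Finset.card_product, Finset.card_product, card_BL, card_BL] at h2
  have h3 := recs_card (M := M) (n := n) (L := pL n) hD hD1 (pL_pos n) four_n_le m
  have h4 := sts_card n (2 ^ b)
  have h5 := col_param hDn
  calc 2 * n * A.card
      ≤ 2 * n * (2 ^ l * ((recs M n (pL n) m).card * ((sts n (2 ^ b)).card *
          2 ^ (P - (l + m * b))))) := Nat.mul_le_mul_left _ h2
    _ ≤ 2 * n * (2 ^ l * ((16 * dmax M ^ 2) ^ m * ((2 ^ b + 1) ^ n * 2 ^ (P - (l + m * b))))) :=
        Nat.mul_le_mul_left _ (Nat.mul_le_mul_left _ (Nat.mul_le_mul h3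
          (Nat.mul_le_mul_right _ h4)))
    _ = 2 ^ l * (2 * n * ((2 ^ b + 1) ^ n * (16 * dmax M ^ 2) ^ m)) * 2 ^ (P - (l + m * b)) := by
        ring
    _ ≤ 2 ^ l * (2 ^ b) ^ m * 2 ^ (P - (l + m * b)) :=
        Nat.mul_le_mul_right _ (Nat.mul_le_mul_left _ h5)
    _ = 2 ^ P := by
        rw [← pow_mul, ← pow_add, ← pow_add]
        congr 1
        rw [mul_comm b m]
        omega

end Pool.Agent.V11223.NR
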