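import Pool.Agent.V11223.NR.Prob
import Pool.Agent.V11223.YD.Time

/-!
# The algorithm runs in polynomial time
-/

namespace Pool.Agent.NPC.V11223NR

open Pool.Agent.V11223.NR Pool.Agent.NPC Pool.Agent.V11223

variable {α : Type} [TEnc α]

theorem drop_poly {β : Type} [TEnc β] {l : α → List β} {n : α → ℕ} (hl : Poly l) (hn : Poly n) :
    Poly (fun a => (l a).drop (n a)) := by
  have key : ∀ (l : List β) (n k : ℕ),
      ((l.zipIdx k).filter fun p => decide (n + k ≤ p.2)).map Prod.fst = l.drop n := by
    intro l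
    induction l with
    | nil => intro n k; simp
    | cons b l ih =>
      intro n k
      rw [List.zipIdx_cons, List.filter_cons]
      cases n with
      | zero =>
        have h1 : (l.zipIdx (k + 1)).filter (fun p => decide (0 + k ≤ p.2)) =
            (l.zipIdx (k + 1)).filter (fun p => decide (0 + (k + 1) ≤ p.2)) := by
          refine List.filter_congr fun p hp => ?_
          have := List.le_snd_of_mem_zipIdx hp
          rw [decide_eq_decide]
          omega
        rw [h1]
        simp only [zero_add, le_refl, decide_true, if_true, List.map_cons, List.drop_zero]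
        have := ih 0 (k + 1)
        rw [List.drop_zero, zero_add] at this
        rw [this]
      | succ n =>
        have hne : ¬ (n + 1 + k ≤ k) := by omega
        simp only [hne, decide_false, Bool.false_eq_true, if_false, List.drop_succ_cons]
        rw [← ih n (k + 1)]
        congr 3
        funext p
        rw [decide_eq_decide]
        omega
  have h1 : Poly (fun a => (((l a).zipIdx.filter fun p => decide (n a ≤ p.2)).map Prod.fst)) := by
    refine Poly.map (F := fun _ (p : β × ℕ) => p.1) ?_ (Poly.fst (Poly.snd Poly.id))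
    refine Poly.filter (p := fun a (p : β × ℕ) => decide (n a ≤ p.2)) (Poly.zipIdx hl) ?_
    exact Poly.decide_le (hn.comp (Poly.fst Poly.id)) (Poly.snd (Poly.snd Poly.id))
  exact h1.congr fun a => key (l a) (n a) 0

theorem take_poly {β : Type} [TEnc β] {l : α → List β} {n : α → ℕ} (hl : Poly l) (hn : Poly n) :
    Poly (fun a => (l a).take (n a)) := by
  have key : ∀ (l : List β) (n k : ℕ),
      ((l.zipIdx k).filter fun p => decide (p.2 < n + k)).map Prod.fst = l.take n := by
    intro l
    induction l with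
    | nil => intro n k; simp
    | cons b l ih =>
      intro n k
      rw [List.zipIdx_cons, List.filter_cons]
      cases n with
      | zero =>
        have h1 : (l.zipIdx (k + 1)).filter (fun p => decide (p.2 < 0 + k)) = [] := by
          rw [List.filter_eq_nil_iff]
          intro p hp
          have := List.le_snd_of_mem_zipIdx hp
          simp only [decide_eq_true_eq]
          omega
        rw [h1]
        simp
      | succ n =>
        have hne : k < n + 1 + k := by omega
        simp only [hne, decide_true, if_true, List.map_cons, List.take_succ_cons]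
        rw [← ih n (k + 1)]
        congr 4
        funext p
        rw [decide_eq_decide]
        omega
  have h1 : Poly (fun a => (((l a).zipIdx.filter fun p => decide (p.2 < n a)).map Prod.fst)) := by
    refine Poly.map (F := fun _ (p : β × ℕ) => p.1) ?_ (Poly.fst (Poly.snd Poly.id))
    refine Poly.filter (p := fun a (p : β × ℕ) => decide (p.2 < n a)) (Poly.zipIdx hl) ?_
    exact Poly.decide_lt (Poly.snd (Poly.snd Poly.id)) (hn.comp (Poly.fst Poly.id))
  exact h1.congr fun a => key (l a) (n a) 0

theorem adj_poly {M : α → List (List Bool)} {x y : α → ℕ} (hM : Poly M) (hx : Poly x)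
    (hy : Poly y) : Poly (fun a => adj (M a) (x a) (y a)) := by
  unfold adj
  exact Poly.getD (Poly.getD hM hx (Poly.const [])) hy (Poly.const false)

theorem verts_poly {e : α → Ent} (he : Poly e) : Poly (fun a => verts (e a)) := by
  unfold verts
  refine Poly.flatMap (F := fun _ (p : ℕ × ℕ) => [p.1, p.2]) he ?_
  exact Poly.cons (Poly.fst (Poly.snd Poly.id)) (Poly.cons (Poly.snd (Poly.snd Poly.id))
    (Poly.const []))

theorem hv_poly {h : α → List ℕ} {e : α → Ent} (hh : Poly h) (he : Poly e) :
    Poly (fun a => hv (h a) (e a)) := by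
  unfold hv
  exact Poly.map (F := fun a u => (h a).getD u 0) (verts_poly he)
    (Poly.getD (hh.comp (Poly.fst Poly.id)) (Poly.snd Poly.id) (Poly.const 0))

theorem mask_poly {ks h : α → List ℕ} {e : α → Ent} (hks : Poly ks) (hh : Poly h) (he : Poly e) :
    Poly (fun a => mask (ks a) (h a) (e a)) := by
  unfold mask
  refine Poly.map (F := fun a i => decide (i ∈ hv (h a) (e a))) hks ?_
  exact Poly.decide_mem (Poly.snd Poly.id)
    (hv_poly (hh.comp (Poly.fst Poly.id)) (he.comp (Poly.fst Poly.id)))

theorem okc_poly {σ h : α → List ℕ} {e : α → Ent} {x y : α → ℕ} (hσ : Poly σ) (hh : Poly h)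
    (he : Poly e) (hx : Poly x) (hy : Poly y) :
    Poly (fun a => okc (σ a) (h a) (e a) (x a) (y a)) := by
  unfold okc
  have s1 : Poly (fun a => (σ a).getD (x a) 0) := Poly.getD hσ hx (Poly.const 0)
  have s2 : Poly (fun a => (σ a).getD (y a) 0) := Poly.getD hσ hy (Poly.const 0)
  have h1 : Poly (fun a => (h a).getD (x a) 0) := Poly.getD hh hx (Poly.const 0)
  have h2 : Poly (fun a => (h a).getD (y a) 0) := Poly.getD hh hy (Poly.const 0)
  have h3 := hv_poly hh he
  exact Poly.and (Poly.and (Poly.decide_eq s1 s2) (Poly.not (Poly.decide_eq s1 (Poly.const 0))))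
    (Poly.and (Poly.and (Poly.not (Poly.decide_mem h1 h3)) (Poly.not (Poly.decide_mem h2 h3)))
      (Poly.not (Poly.decide_eq h1 h2)))

theorem extAt_poly {M : α → List (List Bool)} {σ h : α → List ℕ} {e : α → Ent} {x y : α → ℕ}
    (hM : Poly M) (hσ : Poly σ) (hh : Poly h) (he : Poly e) (hx : Poly x) (hy : Poly y) :
    Poly (fun a => extAt (M a) (σ a) (h a) (e a) (x a) (y a)) := by
  unfold extAt
  have hd : Poly (fun a => (e a).headD (0, 0)) := V11223MC.headD_poly he (Poly.const (0, 0))
  exact Poly.cond (Poly.and (Poly.and (adj_poly hM (Poly.fst hd) hx)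
    (adj_poly hM (Poly.snd hd) hy)) (okc_poly hσ hh he hx hy))
    (Poly.cons (Poly.cons (Poly.pair hx hy) he) (Poly.const [])) (Poly.const [])

theorem extOf_poly {M : α → List (List Bool)} {σ h vs : α → List ℕ} {e : α → Ent} (hM : Poly M)
    (hσ : Poly σ) (hh : Poly h) (hvs : Poly vs) (he : Poly e) :
    Poly (fun a => extOf (M a) (σ a) (h a) (vs a) (e a)) := by
  unfold extOf
  refine Poly.flatMap (F := fun a x => (vs a).flatMap fun y =>
    extAt (M a) (σ a) (h a) (e a) x y) hvs ?_
  refine Poly.flatMap (F := fun (p : α × ℕ) y =>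
    extAt (M p.1) (σ p.1) (h p.1) (e p.1) p.2 y) (hvs.comp (Poly.fst Poly.id)) ?_
  have hf : Poly (fun p : (α × ℕ) × ℕ => p.1.1) := Poly.fst (Poly.fst Poly.id)
  exact extAt_poly (hM.comp hf) (hσ.comp hf) (hh.comp hf) (he.comp hf)
    (Poly.snd (Poly.fst Poly.id)) (Poly.snd Poly.id)

theorem hd1_poly {β : Type} [TEnc β] {l : α → List β} (hl : Poly l) :
    Poly (fun a => hd1 (l a)) := by
  refine (Poly.listCases (g := fun _ => []) (h := fun _ b _ => [b]) hl (Poly.const [])
    (Poly.cons (Poly.fst (Poly.snd Poly.id)) (Poly.const []))).congr fun a => ?_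
  cases l a <;> rfl

theorem keyB_poly {h ks : α → List ℕ} {x y : α → ℕ} {w : α → List Bool} {e : α → Ent}
    (hh : Poly h) (hks : Poly ks) (hx : Poly x) (hy : Poly y) (hw : Poly w) (he : Poly e) :
    Poly (fun a => keyB (h a) (ks a) (x a) (y a) (w a) (e a)) := by
  unfold keyB
  have hd : Poly (fun a => (e a).headD (0, 0)) := V11223MC.headD_poly he (Poly.const (0, 0))
  exact Poly.and (Poly.decide_eq hd (Poly.pair hx hy)) (Poly.decide_eq (mask_poly hks hh he) hw)

theorem pickAt_poly {h ks : α → List ℕ} {x y : α → ℕ} {w : α → List Bool} {l : α → List Ent}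
    (hh : Poly h) (hks : Poly ks) (hx : Poly x) (hy : Poly y) (hw : Poly w) (hl : Poly l) :
    Poly (fun a => hd1 ((l a).filter (keyB (h a) (ks a) (x a) (y a) (w a)))) := by
  have hf : Poly (fun p : α × Ent => p.1) := Poly.fst Poly.id
  exact hd1_poly (Poly.filter (p := fun a e => keyB (h a) (ks a) (x a) (y a) (w a) e) hl
    (keyB_poly (hh.comp hf) (hks.comp hf) (hx.comp hf) (hy.comp hf) (hw.comp hf)
      (Poly.snd Poly.id)))

theorem pick_poly {h vs ks : α → List ℕ} {ms : α → List (List Bool)} {l : α → List Ent}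
    (hh : Poly h) (hvs : Poly vs) (hks : Poly ks) (hms : Poly ms) (hl : Poly l) :
    Poly (fun a => pick (h a) (vs a) (ks a) (ms a) (l a)) := by
  unfold pick
  refine Poly.flatMap (F := fun a x => (vs a).flatMap fun y => (ms a).flatMap fun w =>
    hd1 ((l a).filter (keyB (h a) (ks a) x y w))) hvs ?_
  refine Poly.flatMap (F := fun (p : α × ℕ) y => (ms p.1).flatMap fun w =>
    hd1 ((l p.1).filter (keyB (h p.1) (ks p.1) p.2 y w))) (hvs.comp (Poly.fst Poly.id)) ?_
  refine Poly.flatMap (F := fun (p : (α × ℕ) × ℕ) w =>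
    hd1 ((l p.1.1).filter (keyB (h p.1.1) (ks p.1.1) p.1.2 p.2 w)))
    (hms.comp (Poly.fst (Poly.fst Poly.id))) ?_
  have hf : Poly (fun p : ((α × ℕ) × ℕ) × List Bool => p.1.1.1) :=
    Poly.fst (Poly.fst (Poly.fst Poly.id))
  exact pickAt_poly (hh.comp hf) (hks.comp hf) (Poly.snd (Poly.fst (Poly.fst Poly.id)))
    (Poly.snd (Poly.fst Poly.id)) (Poly.snd Poly.id) (hl.comp hf)

theorem nextLev_poly {M : α → List (List Bool)} {σ h vs ks : α → List ℕ}
    {ms : α → List (List Bool)} {cur : α → List Ent} (hM : Poly M) (hσ : Poly σ) (hh : Poly h)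
    (hvs : Poly vs) (hks : Poly ks) (hms : Poly ms) (hc : Poly cur) :
    Poly (fun a => nextLev (M a) (σ a) (h a) (vs a) (ks a) (ms a) (cur a)) := by
  unfold nextLev
  refine pick_poly hh hvs hks hms ?_
  have hf : Poly (fun p : α × Ent => p.1) := Poly.fst Poly.id
  exact Poly.flatMap (F := fun a e => extOf (M a) (σ a) (h a) (vs a) e) hc
    (extOf_poly (hM.comp hf) (hσ.comp hf) (hh.comp hf) (hvs.comp hf) (Poly.snd Poly.id))

theorem base_poly {σ h : α → List ℕ} {x y : α → ℕ} (hσ : Poly σ) (hh : Poly h) (hx : Poly x)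
    (hy : Poly y) : Poly (fun a => base (σ a) (h a) (x a) (y a)) := by
  unfold base
  exact Poly.cond (okc_poly hσ hh (Poly.const []) hx hy)
    (Poly.cons (Poly.cons (Poly.pair hx hy) (Poly.const [])) (Poly.const [])) (Poly.const [])

theorem closes_poly {M : α → List (List Bool)} {L b : α → ℕ} {e : α → Ent} (hM : Poly M)
    (hL : Poly L) (hb : Poly b) (he : Poly e) : Poly (fun a => closes (M a) (L a) (b a) (e a)) := by
  unfold closes
  exact Poly.or (Poly.decide_eq (Poly.length he) hL)
    (adj_poly hM (Poly.fst (V11223MC.headD_poly he (Poly.const (0, 0)))) hb)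

end Pool.Agent.NPC.V11223NR
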