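import Pool.Agent.V11223.NR.Time0

/-!
# The algorithm runs in polynomial time
-/

namespace Pool.Agent.NPC.V11223NR

open Pool.Agent.V11223.NR Pool.Agent.NPC Pool.Agent.V11223

variable {α : Type} [TEnc α]

theorem hd1_length {β : Type} (l : List β) : (hd1 l).length ≤ 1 := by
  cases l <;> simp [hd1]

theorem len_flatMap_le {α β : Type} (l : List α) (f : α → List β) (c : ℕ)
    (h : ∀ a ∈ l, (f a).length ≤ c) : (l.flatMap f).length ≤ l.length * c := by
  induction l with
  | nil => simp
  | cons a l ih =>
    rw [List.flatMap_cons, List.length_append, List.length_cons, Nat.succ_mul]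
    have h1 := ih (fun a ha => h a (List.mem_cons_of_mem _ ha))
    have h2 := h a (by simp)
    omega

theorem lev_length (M : List (List Bool)) (σ h vs ks : List ℕ) (ms : List (List Bool)) (a b t : ℕ) :
    (lev M σ h vs ks ms a b t).length ≤ vs.length * (vs.length * ms.length) + 1 := by
  cases t with
  | zero =>
    unfold lev base
    cases okc σ h [] a b <;> simp
  | succ t =>
    unfold lev nextLev pick
    refine (len_flatMap_le _ _ (vs.length * ms.length) fun x _ => ?_).trans (Nat.le_succ _)
    refine (len_flatMap_le _ _ ms.length fun y _ => ?_)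
    refine (len_flatMap_le _ _ 1 fun w _ => hd1_length _).trans (by rw [mul_one])

theorem lev_inv (M : List (List Bool)) (σ h vs ks : List ℕ) (ms : List (List Bool)) (a b : ℕ) :
    ∀ t, ∀ e ∈ lev M σ h vs ks ms a b t, e.length = t + 1 ∧
      ∀ p ∈ e, (p.1 = a ∨ p.1 ∈ vs) ∧ (p.2 = b ∨ p.2 ∈ vs) := by
  intro t
  induction t with
  | zero =>
    intro e he
    unfold lev base at he
    cases hok : okc σ h [] a b with
    | false => rw [hok] at he; simp at he
    | true =>
      rw [hok] at he
      simp only [cond_true, List.mem_singleton] at he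
      subst he
      simp
  | succ t ih =>
    intro e he
    unfold lev nextLev pick at he
    simp only [List.mem_flatMap] at he
    obtain ⟨x, -, y, -, w, -, he⟩ := he
    have he := mem_hd1 he
    have he := (List.mem_filter.1 he).1
    simp only [List.mem_flatMap] at he
    obtain ⟨e', he', he⟩ := he
    obtain ⟨h1, h2⟩ := ih e' he'
    unfold extOf extAt at he
    simp only [List.mem_flatMap] at he
    obtain ⟨c, hc, d, hd, he⟩ := he
    cases hok : (adj M (e'.headD (0, 0)).1 c && adj M (e'.headD (0, 0)).2 d) && okc σ h e' c d with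
    | false => rw [hok] at he; simp at he
    | true =>
      rw [hok] at he
      simp only [cond_true, List.mem_singleton] at he
      subst he
      refine ⟨by simp [h1], ?_⟩
      intro p hp
      rcases List.mem_cons.1 hp with rfl | hp
      · exact ⟨Or.inr hc, Or.inr hd⟩
      · exact h2 p hp

/-- A bound for the size of a level. -/
theorem lev_sz {M : List (List Bool)} {σ h vs ks : List ℕ} {ms : List (List Bool)} {a b t B : ℕ}
    (hvs : sz vs ≤ B) (hms : sz ms ≤ B) (ha : sz a ≤ B) (hb : sz b ≤ B) (ht : t + 1 ≤ B) :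
    sz (lev M σ h vs ks ms a b t) ≤ (B * (B * B) + 1) * ((B * (2 * B + 2) + 1) + 1) + 1 := by
  have h1 := lev_length M σ h vs ks ms a b t
  have h2 : (lev M σ h vs ks ms a b t).length ≤ B * (B * B) + 1 := by
    have e1 : vs.length ≤ B := (length_lt_sz vs).le.trans hvs
    have e2 : ms.length ≤ B := (length_lt_sz ms).le.trans hms
    refine h1.trans (Nat.add_le_add_right (Nat.mul_le_mul e1 (Nat.mul_le_mul e1 e2)) 1)
  refine (sz_le_length_mul _ (B * (2 * B + 2) + 1) fun e he => ?_).trans
    (Nat.add_le_add_right (Nat.mul_le_mul_right _ h2) 1)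
  obtain ⟨h3, h4⟩ := lev_inv M σ h vs ks ms a b t e he
  refine (sz_le_length_mul e (2 * B + 1) fun p hp => ?_).trans ?_
  · obtain ⟨h5, h6⟩ := h4 p hp
    obtain ⟨p1, p2⟩ := p
    rw [sz_pair]
    have e1 : sz p1 ≤ B := by
      rcases h5 with rfl | h5
      · exact ha
      · exact (sz_le_of_mem h5).le.trans hvs
    have e2 : sz p2 ≤ B := by
      rcases h6 with rfl | h6
      · exact hb
      · exact (sz_le_of_mem h6).le.trans hvs
    omega
  · rw [h3]
    exact Nat.add_le_add_right (Nat.mul_le_mul_right _ ht) 1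

theorem sz_flatMap_range {β : Type} [TEnc β] (f : ℕ → List β) (B m : ℕ)
    (h : ∀ t < m, sz (f t) ≤ B) : sz ((List.range m).flatMap f) ≤ m * B + 1 := by
  induction m with
  | zero => simp
  | succ m ih =>
    have ih := ih fun t ht => h t (by omega)
    have h1 := h m (by omega)
    rw [List.range_succ, List.flatMap_append]
    have h2 := sz_append ((List.range m).flatMap f) ([m].flatMap f)
    have h3 : [m].flatMap f = f m := by simp
    rw [h3] at h2 ⊢
    rw [Nat.succ_mul]
    omega

theorem cands_poly {M : α → List (List Bool)} {σ h vs ks : α → List ℕ}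
    {ms : α → List (List Bool)} {Ls : α → List Unit} {x y : α → ℕ} (hM : Poly M) (hσ : Poly σ)
    (hh : Poly h) (hvs : Poly vs) (hks : Poly ks) (hms : Poly ms) (hLs : Poly Ls) (hx : Poly x)
    (hy : Poly y) :
    Poly (fun a => cands (M a) (σ a) (h a) (vs a) (ks a) (ms a) (Ls a) (x a) (y a)) := by
  obtain ⟨p1, hp1⟩ := hvs.sz_le
  obtain ⟨p2, hp2⟩ := hms.sz_le
  obtain ⟨p3, hp3⟩ := hx.sz_le
  obtain ⟨p4, hp4⟩ := hy.sz_le
  obtain ⟨p5, hp5⟩ := hLs.sz_le
  set B := p1 + p2 + p3 + p4 + p5 + 1 with hB
  set U := (B * (B * B) + 1) * ((B * (2 * B + 2) + 1) + 1) + 1 with hU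
  have hfold : Poly (fun a => (Ls a).foldl (fun (s : List Ent × List Ent) _ =>
      (nextLev (M a) (σ a) (h a) (vs a) (ks a) (ms a) s.1, s.2 ++ s.1))
      (base (σ a) (h a) (x a) (y a), [])) := by
    refine Poly.foldl (F := fun a (s : List Ent × List Ent) (_ : Unit) =>
      (nextLev (M a) (σ a) (h a) (vs a) (ks a) (ms a) s.1, s.2 ++ s.1)) hLs
      (Poly.pair (base_poly hσ hh hx hy) (Poly.const [])) ?_ (U + (B * U + 1) + 1) ?_
    · have hf : Poly (fun p : α × (List Ent × List Ent) × Unit => p.1) := Poly.fst Poly.id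
      have hs : Poly (fun p : α × (List Ent × List Ent) × Unit => p.2.1) :=
        Poly.fst (Poly.snd Poly.id)
      exact Poly.pair (nextLev_poly (hM.comp hf) (hσ.comp hf) (hh.comp hf) (hvs.comp hf)
        (hks.comp hf) (hms.comp hf) (Poly.fst hs)) (Poly.append (Poly.snd hs) (Poly.fst hs))
    · intro a k hk
      rw [fold_lev, List.length_take, min_eq_left hk, sz_pair]
      have e1 := hp1 a
      have e2 := hp2 a
      have e3 := hp3 a
      have e4 := hp4 a
      have e5 := hp5 a
      have e6 := length_lt_sz (Ls a)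
      have hBe : B.eval (sz a) = p1.eval (sz a) + p2.eval (sz a) + p3.eval (sz a) +
          p4.eval (sz a) + p5.eval (sz a) + 1 := by
        rw [hB]; simp only [Polynomial.eval_add, Polynomial.eval_one]
      have hUe : U.eval (sz a) = (B.eval (sz a) * (B.eval (sz a) * B.eval (sz a)) + 1) *
          ((B.eval (sz a) * (2 * B.eval (sz a) + 2) + 1) + 1) + 1 := by
        rw [hU]
        simp only [Polynomial.eval_add, Polynomial.eval_mul, Polynomial.eval_one,
          Polynomial.eval_ofNat]
      have hl : ∀ t, t ≤ k → sz (lev (M a) (σ a) (h a) (vs a) (ks a) (ms a) (x a) (y a) t) ≤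
          U.eval (sz a) := by
        intro t ht
        rw [hUe]
        exact lev_sz (by omega) (by omega) (by omega) (by omega) (by omega)
      have h1 := hl k le_rfl
      have h2 := sz_flatMap_range (lev (M a) (σ a) (h a) (vs a) (ks a) (ms a) (x a) (y a))
        (U.eval (sz a)) k fun t ht => hl t ht.le
      have h3 : k * U.eval (sz a) ≤ B.eval (sz a) * U.eval (sz a) :=
        Nat.mul_le_mul_right _ (by omega)
      simp only [Polynomial.eval_add, Polynomial.eval_mul, Polynomial.eval_one]
      omega
  unfold cands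
  refine Poly.filter (p := fun a e => closes (M a) (Ls a).length (y a) e) (Poly.snd hfold) ?_
  have hf : Poly (fun p : α × Ent => p.1) := Poly.fst Poly.id
  exact closes_poly (hM.comp hf) (Poly.length (hLs.comp hf)) (hy.comp hf) (Poly.snd Poly.id)

end Pool.Agent.NPC.V11223NR
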